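import Pool.Agent.Helper68.Rec.Equi

/-!
The eight step block: positions.
-/

namespace Helper68.Rec

open Filter Topology

/-- the tiny scale -/
noncomputable def tau (L : ℝ) : ℝ := Real.exp (-(L / 20))

theorem tau_pos (L : ℝ) : 0 < tau L := Real.exp_pos _

theorem tau_lt_one {L : ℝ} (hL : 0 < L) : tau L < 1 := by
  unfold tau
  rw [Real.exp_lt_one_iff]
  linarith

theorem sp_big {L x : ℝ} (h : L / 20 ≤ x) : x ≤ sp x ∧ sp x ≤ x + tau L := by
  refine ⟨(lt_sp x).le, ?_⟩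
  have h1 := sp_le_add x
  have h2 : Real.exp (-x) ≤ tau L := Real.exp_le_exp.mpr (by linarith)
  linarith

theorem sp_small {L x : ℝ} (h : x ≤ -(L / 20)) : sp x ≤ tau L :=
  le_trans (sp_le_exp x) (Real.exp_le_exp.mpr h)

/-- positions after a block of eight steps -/
theorem block {L : ℝ} {U : ℕ → ℝ} (hU : Sol L U) (hL : 1000 ≤ L)
    (h0 : sp (U 0) ≤ 17 / 20 * L) (h1 : sp (U 1) ≤ tau L) (h2 : sp (U 2) ≤ 2 / 5 * L) :
    (|U 8 - (2 * sp (U 0) + sp (U 1) - 2 * sp (U 2))| ≤ 4 * tau L ∧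
      U 9 ≤ -(L / 20) ∧ U 10 ≤ -(L / 20)) ∧
    (L / 20 ≤ U 3 ∧ L / 20 ≤ U 4 ∧ L / 20 ≤ U 5 ∧ L / 20 ≤ U 6 ∧ L / 20 ≤ U 7) := by
  have l2 := log_two_lt
  have l0 : 0 < Real.log 2 := Real.log_pos (by norm_num)
  have hLpos : 0 < L := by linarith
  have ht := tau_pos L
  have ht1 := tau_lt_one hLpos
  have p0 := sp_pos (U 0)
  have p1 := sp_pos (U 1)
  have p2 := sp_pos (U 2)
  have e3 : U 3 = L + sp (U 2) - sp (U 0) := hU 0
  have e4 : U 4 = L + sp (U 3) - sp (U 1) := hU 1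
  have e5 : U 5 = L + sp (U 4) - sp (U 2) := hU 2
  have e6 : U 6 = L + sp (U 5) - sp (U 3) := hU 3
  have e7 : U 7 = L + sp (U 6) - sp (U 4) := hU 4
  have e8 : U 8 = L + sp (U 7) - sp (U 5) := hU 5
  have e9 : U 9 = L + sp (U 8) - sp (U 6) := hU 6
  have e10 : U 10 = L + sp (U 9) - sp (U 7) := hU 7
  have b3 : L / 20 ≤ U 3 := by linarith
  obtain ⟨q3, r3⟩ := sp_big b3
  have b4 : L / 20 ≤ U 4 := by linarith
  obtain ⟨q4, r4⟩ := sp_big b4
  have b5 : L / 20 ≤ U 5 := by linarith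
  obtain ⟨q5, r5⟩ := sp_big b5
  have b6 : L / 20 ≤ U 6 := by linarith
  obtain ⟨q6, r6⟩ := sp_big b6
  have b7 : L / 20 ≤ U 7 := by linarith
  obtain ⟨q7, r7⟩ := sp_big b7
  have m8 : |U 8 - (2 * sp (U 0) + sp (U 1) - 2 * sp (U 2))| ≤ 4 * tau L := by
    rw [abs_le]
    constructor <;> linarith
  have hm8 := abs_le.mp m8
  have b9 : U 9 ≤ -(L / 20) := by
    rcases le_total 0 (U 8) with h | h
    · have r8 := sp_le_of_nonneg h
      linarith [hm8.1, hm8.2]
    · have r8 := sp_le_of_nonpos h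
      linarith
  have r9 := sp_small b9
  have b10 : U 10 ≤ -(L / 20) := by
    linarith
  exact ⟨⟨m8, b9, b10⟩, b3, b4, b5, b6, b7⟩

/-- one block starting from a state with two very negative entries -/
theorem rblock {L : ℝ} {U : ℕ → ℝ} (hU : Sol L U) (hL : 1000 ≤ L) (n : ℕ)
    (h0 : sp (U n) ≤ 17 / 20 * L) (h1 : U (n + 1) ≤ -(L / 20)) (h2 : U (n + 2) ≤ -(L / 20)) :
    |U (n + 8) - 2 * sp (U n)| ≤ 6 * tau L ∧
      U (n + 9) ≤ -(L / 20) ∧ U (n + 10) ≤ -(L / 20) := by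
  have hLpos : 0 < L := by linarith
  have s1 := sp_small h1
  have s2 := sp_small h2
  have ht1 := tau_lt_one hLpos
  have p1 := sp_pos (U (n + 1))
  have p2 := sp_pos (U (n + 2))
  have hb := block (hU.shift n) hL (by simpa using h0) (by simpa [add_comm] using s1)
    (by
      have : sp (U (n + 2)) ≤ 2 / 5 * L := by linarith
      simpa [add_comm] using this)
  obtain ⟨⟨a, b, c⟩, _⟩ := hb
  simp only [zero_add, show 8 + n = n + 8 by ring, show 1 + n = n + 1 by ring,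
    show 2 + n = n + 2 by ring, show 9 + n = n + 9 by ring, show 10 + n = n + 10 by ring] at a b c
  refine ⟨?_, b, c⟩
  rw [abs_le] at a ⊢
  constructor <;> linarith [a.1, a.2]

/-- the reference orbit -/
noncomputable def rho : ℕ → ℝ
  | 0 => Real.log 2
  | (n + 1) => sp (2 * rho n)

theorem rho_pos (n : ℕ) : 0 < rho n := by
  cases n with
  | zero => exact Real.log_pos (by norm_num)
  | succ n => exact sp_pos _

theorem rho_succ_ge (n : ℕ) : 2 * rho n ≤ rho (n + 1) := (lt_sp _).le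

theorem rho_ge (n : ℕ) : 2 ^ n * Real.log 2 ≤ rho n := by
  induction n with
  | zero => simp [rho]
  | succ n ih =>
    have := rho_succ_ge n
    rw [pow_succ]
    linarith

theorem rho_mono : Monotone rho := by
  apply monotone_nat_of_le_succ
  intro n
  have := rho_succ_ge n
  have := rho_pos n
  linarith

/-- Upper comparison of a chain of blocks with the reference orbit. -/
theorem chain_upper {L : ℝ} {U : ℕ → ℝ} (hU : Sol L U) (hL : 1000 ≤ L) (n i : ℕ)
    (c e : ℝ) (hc : 1 ≤ c) (he : 0 ≤ e) (J : ℕ)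
    (hJ : ∀ j < J, c * rho (i + j) + 2 ^ j * (e + 6 * tau L) ≤ 17 / 20 * L)
    (h0 : sp (U n) ≤ c * rho i + e) (h1 : U (n + 1) ≤ -(L / 20))
    (h2 : U (n + 2) ≤ -(L / 20)) :
    ∀ j ≤ J, sp (U (n + 8 * j)) ≤ c * rho (i + j) + 2 ^ j * (e + 6 * tau L) - 6 * tau L ∧
      U (n + 8 * j + 1) ≤ -(L / 20) ∧ U (n + 8 * j + 2) ≤ -(L / 20) := by
  intro j
  have ht := tau_pos L
  induction j with
  | zero =>
    intro _
    refine ⟨?_, by simpa using h1, by simpa using h2⟩
    simp only [mul_zero, add_zero, pow_zero, one_mul]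
    linarith
  | succ j ih =>
    intro hj
    obtain ⟨a, b1, b2⟩ := ih (by omega)
    have hlt := hJ j (by omega)
    obtain ⟨r, s1, s2⟩ := rblock hU hL (n + 8 * j) (by linarith) b1 b2
    refine ⟨?_, by simpa [show n + 8 * (j + 1) + 1 = n + 8 * j + 9 by ring] using s1,
      by simpa [show n + 8 * (j + 1) + 2 = n + 8 * j + 10 by ring] using s2⟩
    rw [show n + 8 * (j + 1) = n + 8 * j + 8 by ring, show i + (j + 1) = (i + j) + 1 by ring]
    have h3 : U (n + 8 * j + 8) ≤ c * (2 * rho (i + j))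
        + (2 * (2 ^ j * (e + 6 * tau L) - 6 * tau L) + 6 * tau L) := by
      have := (abs_le.mp r).2
      linarith
    have hnn : 0 ≤ 2 * (2 ^ j * (e + 6 * tau L) - 6 * tau L) + 6 * tau L := by
      have h2j : (1:ℝ) ≤ 2 ^ j := one_le_pow₀ (by norm_num)
      have : 1 * (e + 6 * tau L) ≤ 2 ^ j * (e + 6 * tau L) :=
        mul_le_mul_of_nonneg_right h2j (by linarith)
      linarith
    have h4 : sp (U (n + 8 * j + 8)) ≤ c * rho (i + j + 1)
        + (2 * (2 ^ j * (e + 6 * tau L) - 6 * tau L) + 6 * tau L) := by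
      calc sp (U (n + 8 * j + 8)) ≤ sp (c * (2 * rho (i + j))
            + (2 * (2 ^ j * (e + 6 * tau L) - 6 * tau L) + 6 * tau L)) := sp_mono h3
        _ ≤ sp (c * (2 * rho (i + j)))
            + (2 * (2 ^ j * (e + 6 * tau L) - 6 * tau L) + 6 * tau L) := sp_add_le hnn
        _ ≤ _ := by
          have := sp_mul_le (c := c) (x := 2 * rho (i + j)) hc
          have e1 : rho (i + j + 1) = sp (2 * rho (i + j)) := rfl
          rw [e1]
          linarith
    rw [pow_succ]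
    linarith

/-- Lower comparison of a chain of blocks with the reference orbit. -/
theorem chain_lower {L : ℝ} {U : ℕ → ℝ} (hU : Sol L U) (hL : 1000 ≤ L) (n i : ℕ)
    (c e : ℝ) (hc0 : 0 ≤ c) (hc : c ≤ 1) (he : 0 ≤ e) (J : ℕ)
    (hJ : ∀ j < J, sp (U (n + 8 * j)) ≤ 17 / 20 * L ∧ U (n + 8 * j + 1) ≤ -(L / 20) ∧
      U (n + 8 * j + 2) ≤ -(L / 20))
    (h0 : c * rho i - e ≤ sp (U n)) :
    ∀ j ≤ J, c * rho (i + j) - (2 ^ j * (e + 6 * tau L) - 6 * tau L) ≤ sp (U (n + 8 * j)) := by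
  intro j
  have ht := tau_pos L
  induction j with
  | zero =>
    intro _
    simp only [mul_zero, add_zero, pow_zero, one_mul]
    linarith
  | succ j ih =>
    intro hj
    have a := ih (by omega)
    obtain ⟨b0, b1, b2⟩ := hJ j (by omega)
    obtain ⟨r, _, _⟩ := rblock hU hL (n + 8 * j) b0 b1 b2
    rw [show n + 8 * (j + 1) = n + 8 * j + 8 by ring, show i + (j + 1) = (i + j) + 1 by ring]
    have h3 : c * (2 * rho (i + j))
        - (2 * (2 ^ j * (e + 6 * tau L) - 6 * tau L) + 6 * tau L) ≤ U (n + 8 * j + 8) := by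
      have := (abs_le.mp r).1
      linarith
    have hnn : 0 ≤ 2 * (2 ^ j * (e + 6 * tau L) - 6 * tau L) + 6 * tau L := by
      have h2j : (1:ℝ) ≤ 2 ^ j := one_le_pow₀ (by norm_num)
      have : 1 * (e + 6 * tau L) ≤ 2 ^ j * (e + 6 * tau L) :=
        mul_le_mul_of_nonneg_right h2j (by linarith)
      linarith
    have h4 : c * rho (i + j + 1)
        - (2 * (2 ^ j * (e + 6 * tau L) - 6 * tau L) + 6 * tau L) ≤ sp (U (n + 8 * j + 8)) := by
      calc c * rho (i + j + 1)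
            - (2 * (2 ^ j * (e + 6 * tau L) - 6 * tau L) + 6 * tau L)
          ≤ sp (c * (2 * rho (i + j)))
            - (2 * (2 ^ j * (e + 6 * tau L) - 6 * tau L) + 6 * tau L) := by
            have := sp_mul_ge (c := c) (x := 2 * rho (i + j)) hc0 hc
            have e1 : rho (i + j + 1) = sp (2 * rho (i + j)) := rfl
            rw [e1]
            linarith
        _ ≤ sp (c * (2 * rho (i + j))
            - (2 * (2 ^ j * (e + 6 * tau L) - 6 * tau L) + 6 * tau L)) := sp_sub_ge hnn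
        _ ≤ _ := sp_mono h3
    rw [pow_succ]
    linarith

end Helper68.Rec
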