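import Pool.Agent.Helper68.Rec.Diff

/-!
Contraction in the low and high regions, expansion of a cone in the middle region.
-/

namespace Helper68.Rec

open Filter Topology

/-- the adapted size of a difference -/
noncomputable def Gd (U V : ℕ → ℝ) (n : ℕ) : ℝ := Ad U V n + 10 ^ 15 * Zd U V n

theorem Gd_nonneg (U V : ℕ → ℝ) (n : ℕ) : 0 ≤ Gd U V n := by
  have := Ad_nonneg U V n
  have := Zd_nonneg U V n
  unfold Gd
  positivity

theorem Ad_le_Gd (U V : ℕ → ℝ) (n : ℕ) : Ad U V n ≤ Gd U V n := by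
  have := Zd_nonneg U V n
  unfold Gd
  linarith

theorem tau_Ad {U V : ℕ → ℝ} {n : ℕ} : 0 ≤ tau LL * Ad U V n ∧
    tau LL * Ad U V n ≤ 1 / 10 ^ 100 * Ad U V n := by
  have := Ad_nonneg U V n
  exact ⟨mul_nonneg (tau_pos LL).le this, mul_le_mul_of_nonneg_right tau_LL this⟩

theorem D3_le {U V : ℕ → ℝ} (hU : Sol LL U) (hV : Sol LL V) {n : ℕ} (hsU : Sec U n)
    (hsV : Sec V n) : |U (n + 3) - V (n + 3)| ≤ Ad U V n := by
  obtain ⟨z1, z2, z3⟩ := zstep_diff hU hV hsU hsV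
  have c0 := abs_le.mp (le_refl |sp (U n) - sp (V n)|)
  have e := Ad_eq U V n
  rw [abs_le] at z3 ⊢
  constructor <;> linarith [z3.1, z3.2, c0.1, c0.2]

/-- contraction in the low region -/
theorem low_contract {U V : ℕ → ℝ} (hU : Sol LL U) (hV : Sol LL V) {n : ℕ} (hsU : Sec U n)
    (hsV : Sec V n) (h1 : U (n + 9) ≤ -70) (h2 : V (n + 9) ≤ -70) :
    Gd U V (n + 329) ≤ 1 / 2 * Gd U V n := by
  obtain ⟨z1, z2, z3⟩ := zstep_diff hU hV hsU hsV
  have hA := Ad_nonneg U V n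
  have hA9 := Ad_nonneg U V (n + 9)
  have hZ := Zd_nonneg U V n
  obtain ⟨t0, t1⟩ := tau_Ad (U := U) (V := V) (n := n)
  have d3 := D3_le hU hV hsU hsV
  have l3 := sp_lip (U (n + 3)) (V (n + 3))
  have c3 := abs_le.mp (le_refl |sp (U (n + 3)) - sp (V (n + 3))|)
  have e := Ad_eq U V n
  have e9 := Ad_eq U V (n + 9)
  have n0 := abs_nonneg (sp (U n) - sp (V n))
  have hAs : (1:ℝ) / 10 ^ 100 * Ad U V n ≤ 1 / 1000 * Ad U V n :=
    mul_le_mul_of_nonneg_right (by norm_num) hA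
  have f9 : |U (n + 9) - V (n + 9)| ≤ 5 * Ad U V n := by
    rw [abs_le] at z1 ⊢
    constructor <;> linarith [z1.1, z1.2, c3.1, c3.2]
  have g9 := sp_diff_le h1 h2 exp_neg_70
  have h9 : Ad U V (n + 9) ≤ 1 / 10 ^ 27 * Ad U V n := by
    have q1 : (1:ℝ) / 10 ^ 28 * |U (n + 9) - V (n + 9)| ≤ 1 / 10 ^ 28 * (5 * Ad U V n) :=
      mul_le_mul_of_nonneg_left f9 (by norm_num)
    have q2 : (40:ℝ) * (1 / 10 ^ 100) * Ad U V n ≤ 1 / 10 ^ 28 * Ad U V n :=
      mul_le_mul_of_nonneg_right (by norm_num) hA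
    have q3 : (1:ℝ) / 10 ^ 28 * (5 * Ad U V n) + 1 / 10 ^ 28 * Ad U V n ≤
        1 / 10 ^ 27 * Ad U V n := by
      have : (1:ℝ) / 10 ^ 28 * (5 * Ad U V n) + 1 / 10 ^ 28 * Ad U V n =
        (6 / 10 ^ 28) * Ad U V n := by ring
      rw [this]
      exact mul_le_mul_of_nonneg_right (by norm_num) hA
    linarith
  obtain ⟨r, -⟩ := ret_diff hU hV hsU hsV 40 le_rfl
  obtain ⟨-, c⟩ := ret_crude hU hV hsU hsV
  obtain ⟨-, c2⟩ := c 40 le_rfl
  rw [show n + 9 + 8 * 40 = n + 329 by ring] at r c2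
  have hb : (21 / 10 : ℝ) ^ 40 * Ad U V (n + 9) ≤ 10 ^ 13 * (1 / 10 ^ 27 * Ad U V n) :=
    mul_le_mul (pow21 le_rfl) h9 hA9 (by positivity)
  have hb2 : (10:ℝ) ^ 13 * (1 / 10 ^ 27 * Ad U V n) ≤ 1 / 10 * Ad U V n := by
    rw [← mul_assoc]
    exact mul_le_mul_of_nonneg_right (by norm_num) hA
  have hb3 : (10:ℝ) ^ 15 * (1 / 10 ^ 80 * Ad U V n) ≤ 1 / 10 * Ad U V n := by
    rw [← mul_assoc]
    exact mul_le_mul_of_nonneg_right (by norm_num) hA
  unfold Gd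
  have : (10:ℝ) ^ 15 * Zd U V (n + 329) ≤ 10 ^ 15 * (1 / 10 ^ 80 * Ad U V n) :=
    mul_le_mul_of_nonneg_left c2 (by positivity)
  linarith

/-- contraction in the high region -/
theorem high_contract {U V : ℕ → ℝ} (hU : Sol LL U) (hV : Sol LL V) {n : ℕ} (hsU : Sec U n)
    (hsV : Sec V n) (h1 : U (n + 3) ≤ -40) (h2 : V (n + 3) ≤ -40) :
    Gd U V (n + 329) ≤ 1 / 2 * Gd U V n := by
  obtain ⟨z1, z2, z3⟩ := zstep_diff hU hV hsU hsV
  have hA := Ad_nonneg U V n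
  have hA9 := Ad_nonneg U V (n + 9)
  have hZ := Zd_nonneg U V n
  obtain ⟨t0, t1⟩ := tau_Ad (U := U) (V := V) (n := n)
  have d3 := D3_le hU hV hsU hsV
  have g3 := sp_diff_le h1 h2 exp_neg_40
  have g3' : |sp (U (n + 3)) - sp (V (n + 3))| ≤ 1 / 10 ^ 16 * Ad U V n :=
    le_trans g3 (mul_le_mul_of_nonneg_left d3 (by norm_num))
  obtain ⟨g3a, g3b⟩ := abs_le.mp g3'
  have e9 := Ad_eq U V (n + 9)
  have l9 := sp_lip (U (n + 9)) (V (n + 9))
  have q0 : (28:ℝ) * (1 / 10 ^ 100) * Ad U V n ≤ 1 / 10 ^ 17 * Ad U V n :=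
    mul_le_mul_of_nonneg_right (by norm_num) hA
  have q1 : (40:ℝ) * (1 / 10 ^ 100) * Ad U V n ≤ 1 / 10 ^ 17 * Ad U V n :=
    mul_le_mul_of_nonneg_right (by norm_num) hA
  have f9 : |U (n + 9) - V (n + 9)| ≤
      2 * Zd U V n + (2 * (1 / 10 ^ 16 * Ad U V n) + 1 / 10 ^ 17 * Ad U V n) := by
    rw [abs_le] at z1 ⊢
    constructor <;> linarith [z1.1, z1.2]
  have h9 : Ad U V (n + 9) ≤ 2 * Zd U V n + 3 * (1 / 10 ^ 16 * Ad U V n) := by
    have q2 : (2:ℝ) * (1 / 10 ^ 16 * Ad U V n) + 1 / 10 ^ 17 * Ad U V n +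
        1 / 10 ^ 17 * Ad U V n ≤ 3 * (1 / 10 ^ 16 * Ad U V n) := by
      have : (2:ℝ) * (1 / 10 ^ 16 * Ad U V n) + 1 / 10 ^ 17 * Ad U V n +
        1 / 10 ^ 17 * Ad U V n = (22 / 10 ^ 17) * Ad U V n := by ring
      rw [this, show (3:ℝ) * (1 / 10 ^ 16 * Ad U V n) = (30 / 10 ^ 17) * Ad U V n by ring]
      exact mul_le_mul_of_nonneg_right (by norm_num) hA
    linarith
  obtain ⟨r, -⟩ := ret_diff hU hV hsU hsV 40 le_rfl
  obtain ⟨-, c⟩ := ret_crude hU hV hsU hsV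
  obtain ⟨-, c2⟩ := c 40 le_rfl
  rw [show n + 9 + 8 * 40 = n + 329 by ring] at r c2
  have hb : (21 / 10 : ℝ) ^ 40 * Ad U V (n + 9) ≤
      10 ^ 13 * (2 * Zd U V n + 3 * (1 / 10 ^ 16 * Ad U V n)) :=
    mul_le_mul (pow21 le_rfl) h9 hA9 (by positivity)
  have hb2 : (10:ℝ) ^ 13 * (2 * Zd U V n + 3 * (1 / 10 ^ 16 * Ad U V n)) =
      1 / 50 * (10 ^ 15 * Zd U V n) + 3 / 1000 * Ad U V n := by ring
  have hb3 : (10:ℝ) ^ 15 * (1 / 10 ^ 80 * Ad U V n) ≤ 1 / 10 * Ad U V n := by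
    rw [← mul_assoc]
    exact mul_le_mul_of_nonneg_right (by norm_num) hA
  unfold Gd
  have : (10:ℝ) ^ 15 * Zd U V (n + 329) ≤ 10 ^ 15 * (1 / 10 ^ 80 * Ad U V n) :=
    mul_le_mul_of_nonneg_left c2 (by positivity)
  have hZ15 : 0 ≤ (10:ℝ) ^ 15 * Zd U V n := by positivity
  linarith

theorem sg_eq (x : ℝ) : sg x = 1 / (1 + Real.exp (-x)) := by
  unfold sg
  rw [Real.exp_neg]
  have := Real.exp_pos x
  field_simp
  ring

theorem sg_neg3 : (1 : ℝ) / 25 ≤ sg (-3) := by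
  rw [sg_eq]
  apply one_div_le_one_div_of_le (by positivity)
  have h : Real.exp 1 < 2.7182818286 := Real.exp_one_lt_d9
  have h2 : Real.exp (- -3) = (Real.exp 1) ^ 3 := by
    rw [← Real.exp_nat_mul]; norm_num
  rw [h2]
  have h3 : (Real.exp 1) ^ 3 ≤ (2.7182818286 : ℝ) ^ 3 :=
    pow_le_pow_left₀ (Real.exp_pos 1).le h.le 3
  norm_num at h3 ⊢
  linarith

theorem sg_13 : (3 : ℝ) / 4 ≤ sg (13 / 10) := by
  have h1 : (3:ℝ) ≤ Real.exp (13 / 10) := by
    have h : (2.7182818283 : ℝ) < Real.exp 1 := Real.exp_one_gt_d9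
    have h2 : Real.exp (13 / 10) = Real.exp 1 * Real.exp (3 / 10) := by
      rw [← Real.exp_add]; norm_num
    have h3 := Real.add_one_le_exp (3 / 10 : ℝ)
    rw [h2]
    nlinarith [Real.exp_pos 1]
  unfold sg
  rw [div_le_div_iff₀ (by norm_num) (by positivity)]
  linarith

theorem sg_tau : (49 : ℝ) / 100 ≤ sg (-(6 * tau LL)) := by
  have ht2 : tau LL ≤ 1 / 1000 := le_trans tau_LL (by norm_num)
  have h1 := Real.add_one_le_exp (-(6 * tau LL))
  unfold sg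
  rw [div_le_div_iff₀ (by norm_num) (by positivity)]
  linarith

/-- expansion of the cone in the middle region -/
theorem mid_expand {U V : ℕ → ℝ} (hU : Sol LL U) (hV : Sol LL V) {n : ℕ} (hsU : Sec U n)
    (hsV : Sec V n) (a1 : -3 ≤ U (n + 3)) (a2 : -3 ≤ V (n + 3)) (b1 : -3 ≤ U (n + 9))
    (b2 : -3 ≤ V (n + 9)) (hc : 10 ^ 15 * Zd U V n ≤ |sp (U n) - sp (V n)|) :
    4 * |sp (U n) - sp (V n)| ≤ |sp (U (n + 329)) - sp (V (n + 329))| ∧
    10 ^ 15 * Zd U V (n + 329) ≤ |sp (U (n + 329)) - sp (V (n + 329))| := by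
  obtain ⟨z1, z2, z3⟩ := zstep_diff hU hV hsU hsV
  have hA := Ad_nonneg U V n
  have hZ := Zd_nonneg U V n
  have e := Ad_eq U V n
  obtain ⟨-, c⟩ := ret_crude hU hV hsU hsV
  obtain ⟨t0, t1⟩ := tau_Ad (U := U) (V := V) (n := n)
  have g3 := sp_diff_ge a1 a2 sg_neg3
  have g9 := sp_diff_ge b1 b2 sg_neg3
  have tr1 : |sp (U n) - sp (V n)| - Zd U V n ≤ |U (n + 3) - V (n + 3)| := by
    have h1 := abs_sub_abs_le_abs_sub (sp (U n) - sp (V n)) (-(U (n + 3) - V (n + 3)))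
    rw [abs_neg, sub_neg_eq_add, add_comm (sp (U n) - sp (V n))] at h1
    linarith
  have tr2 : 2 * |sp (U (n + 3)) - sp (V (n + 3))| - (2 * Zd U V n + 28 * tau LL * Ad U V n) ≤
      |U (n + 9) - V (n + 9)| := by
    have h1 := abs_sub_abs_le_abs_sub (2 * (sp (U (n + 3)) - sp (V (n + 3))))
      (-(U (n + 9) - V (n + 9)))
    rw [abs_neg, sub_neg_eq_add, add_comm (2 * (sp (U (n + 3)) - sp (V (n + 3)))),
      abs_mul, abs_of_pos (by norm_num : (0:ℝ) < 2)] at h1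
    linarith
  -- write `E` for the main difference
  obtain ⟨E, hE⟩ : ∃ E, E = |sp (U n) - sp (V n)| := ⟨_, rfl⟩
  have hE0 : 0 ≤ E := by rw [hE]; exact abs_nonneg _
  rw [← hE] at hc e tr1 ⊢
  have hZE : Zd U V n ≤ 1 / 10 ^ 15 * E := by
    rw [div_mul_eq_mul_div, one_mul, le_div_iff₀ (by positivity)]
    linarith
  have hsmall : (1:ℝ) / 10 ^ 15 * E ≤ 1 / 1000000 * E :=
    mul_le_mul_of_nonneg_right (by norm_num) hE0
  have hAE : Ad U V n ≤ 2 * E := by linarith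
  have hsm1 : (1:ℝ) / 10 ^ 100 * Ad U V n ≤ 1 / 1000000 * Ad U V n :=
    mul_le_mul_of_nonneg_right (by norm_num) hA
  have k9 : 3 / 1000 * E ≤ |sp (U (n + 9)) - sp (V (n + 9))| := by
    have : 3 / 40 * E ≤ |U (n + 9) - V (n + 9)| := by
      linarith
    linarith
  -- the chain of blocks
  have chain : ∀ j ≤ 39, (7 / 5 : ℝ) ^ j * (1 / 500 * E) ≤
      |sp (U (n + 17 + 8 * j)) - sp (V (n + 17 + 8 * j))| := by
    have step : ∀ j < 40, 2 * |sp (U (n + 9 + 8 * j)) - sp (V (n + 9 + 8 * j))| -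
        1 / 1000000 * E ≤ |U (n + 17 + 8 * j) - V (n + 17 + 8 * j)| := by
      intro j hj
      obtain ⟨p1, p2, p3⟩ := ret_chain hU hsU j hj
      obtain ⟨q1, q2, q3⟩ := ret_chain hV hsV j hj
      obtain ⟨r, -⟩ := rblock_diff hU hV (n + 9 + 8 * j) p1 p2 p3 q1 q2 q3
      rw [show n + 9 + 8 * j + 8 = n + 17 + 8 * j by ring] at r
      obtain ⟨s1, s2⟩ := c j hj.le
      have h1 := abs_sub_abs_le_abs_sub (2 * (sp (U (n + 9 + 8 * j)) - sp (V (n + 9 + 8 * j))))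
        (U (n + 17 + 8 * j) - V (n + 17 + 8 * j))
      rw [abs_sub_comm (2 * (sp (U (n + 9 + 8 * j)) - sp (V (n + 9 + 8 * j)))), abs_mul,
        abs_of_pos (by norm_num : (0:ℝ) < 2)] at h1
      have hA9 := Ad_nonneg U V (n + 9 + 8 * j)
      have m1 : 14 * tau LL * Ad U V (n + 9 + 8 * j) ≤
          14 * (1 / 10 ^ 100) * (10 ^ 14 * Ad U V n) :=
        mul_le_mul (by linarith [tau_LL]) s1 hA9 (by norm_num)
      have m2 : (14:ℝ) * (1 / 10 ^ 100) * (10 ^ 14 * Ad U V n) ≤ 1 / 10 ^ 80 * Ad U V n := by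
        rw [← mul_assoc]
        exact mul_le_mul_of_nonneg_right (by norm_num) hA
      have m3 : (3:ℝ) * (1 / 10 ^ 80 * Ad U V n) ≤ 1 / 2000000 * Ad U V n := by
        rw [← mul_assoc]
        exact mul_le_mul_of_nonneg_right (by norm_num) hA
      linarith
    intro j
    induction j with
    | zero =>
      intro _
      have s := step 0 (by norm_num)
      simp only [mul_zero, add_zero] at s ⊢
      rw [pow_zero, one_mul]
      have pU := second_ge hU hsU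
      have pV := second_ge hV hsV
      have w1 := sp_pos (U (n + 9))
      have w2 := sp_pos (V (n + 9))
      have uU : -(6 * tau LL) ≤ U (n + 17) := by
        have := (abs_le.mp pU.2).1
        linarith
      have uV : -(6 * tau LL) ≤ V (n + 17) := by
        have := (abs_le.mp pV.2).1
        linarith
      have g := sp_diff_ge uU uV sg_tau
      linarith
    | succ j ih =>
      intro hj
      have ih' := ih (by omega)
      have s := step (j + 1) (by omega)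
      rw [show n + 9 + 8 * (j + 1) = n + 17 + 8 * j by ring] at s
      -- positions
      have lower : ∀ W : ℕ → ℝ, Sol LL W → Sec W n → 13 / 10 ≤ W (n + 17 + 8 * (j + 1)) := by
        intro W hW hsW
        obtain ⟨s0, -⟩ := second_ge hW hsW
        have ht := tau_pos LL
        have key := chain_lower hW LL_ge' (n + 17) 0 1 (6 * tau LL) (by norm_num) le_rfl
          (by positivity) 39 (ret_chain' hW hsW) (by linarith) j (by omega)
        rw [zero_add] at key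
        have hsm := (small_term (j := j) (by omega) (e := 6 * tau LL)
          (by positivity) (by have := tau7; linarith)).2
        have hr : rho 0 ≤ rho j := rho_mono (Nat.zero_le j)
        have e0 : rho 0 = Real.log 2 := rfl
        have l1 := log_two_gt
        have ht2 : tau LL ≤ 1 / 1000 := le_trans tau_LL (by norm_num)
        obtain ⟨p1, p2, p3⟩ := ret_chain' hW hsW j (by omega)
        obtain ⟨r, -, -⟩ := rblock hW LL_ge' (n + 17 + 8 * j) p1 p2 p3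
        rw [show n + 17 + 8 * j + 8 = n + 17 + 8 * (j + 1) by ring] at r
        have := (abs_le.mp r).1
        linarith
      have g := sp_diff_ge (lower U hU hsU) (lower V hV hsV) sg_13
      have hpow : (1:ℝ) ≤ (7 / 5) ^ j := one_le_pow₀ (by norm_num)
      have hmul : 1 * (1 / 500 * E) ≤ (7 / 5) ^ j * (1 / 500 * E) :=
        mul_le_mul_of_nonneg_right hpow (by positivity)
      rw [pow_succ, show (7 / 5 : ℝ) ^ j * (7 / 5) * (1 / 500 * E) =
        7 / 5 * ((7 / 5) ^ j * (1 / 500 * E)) by ring]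
      linarith
  have fin := chain 39 le_rfl
  rw [show n + 17 + 8 * 39 = n + 329 by ring] at fin
  have h4 : 4 * E ≤ |sp (U (n + 329)) - sp (V (n + 329))| := by
    refine le_trans ?_ fin
    rw [← mul_assoc]
    exact mul_le_mul_of_nonneg_right (by norm_num) hE0
  refine ⟨h4, ?_⟩
  obtain ⟨-, c2⟩ := c 40 le_rfl
  rw [show n + 9 + 8 * 40 = n + 329 by ring] at c2
  have h5 : (10:ℝ) ^ 15 * (1 / 10 ^ 80 * Ad U V n) ≤ 1 * Ad U V n := by
    rw [← mul_assoc]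
    exact mul_le_mul_of_nonneg_right (by norm_num) hA
  have h6 : (10:ℝ) ^ 15 * Zd U V (n + 329) ≤ 10 ^ 15 * (1 / 10 ^ 80 * Ad U V n) :=
    mul_le_mul_of_nonneg_left c2 (by positivity)
  linarith

end Helper68.Rec
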