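import Pool.Agent.Helper68.Rec.Contract

/-!
Convergence of every non-equilibrium orbit to a periodic one.
-/

namespace Helper68.Rec

open Filter Topology

theorem sec_iter {U : ℕ → ℝ} (hU : Sol LL U) {n : ℕ} (h : Sec U n) (i : ℕ) :
    Sec U (n + 329 * i) := by
  induction i with
  | zero => simpa using h
  | succ i ih =>
    have := sec_next hU ih
    rwa [show n + 329 * i + 329 = n + 329 * (i + 1) by ring] at this

theorem halving (G : ℕ → ℝ) (h : ∀ i, G (i + 1) ≤ 1 / 2 * G i) (i : ℕ) :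
    G i ≤ (1 / 2) ^ i * G 0 := by
  induction i with
  | zero => simp
  | succ i ih =>
    rw [pow_succ]
    linarith [h i]

/-- The differences `U (k + 329) - U k` decay along the returns. -/
theorem decay {U : ℕ → ℝ} (hU : Sol LL U) {n0 : ℕ} (h : Sec U n0) :
    ∃ m C, ∀ i : ℕ, Ad U (fun k => U (k + 329)) (m + 329 * i) ≤ C * (1 / 2) ^ i := by
  have hV : Sol LL (fun k => U (k + 329)) := hU.shift 329
  have hs : ∀ i, Sec U (n0 + 329 * i) := sec_iter hU h
  have hsV : ∀ i, Sec (fun k => U (k + 329)) (n0 + 329 * i) := by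
    intro i
    have := hs (i + 1)
    unfold Sec at this ⊢
    simpa only [show n0 + 329 * i + 329 = n0 + 329 * (i + 1) by ring,
      show n0 + 329 * i + 1 + 329 = n0 + 329 * (i + 1) + 1 by ring,
      show n0 + 329 * i + 2 + 329 = n0 + 329 * (i + 1) + 2 by ring] using this
  by_cases hlow : ∃ i0, 40 ≤ U (n0 + 329 * i0 + 3)
  · obtain ⟨i0, hi0⟩ := hlow
    have hall : ∀ i, 40 ≤ U (n0 + 329 * (i0 + i) + 3) := by
      intro i
      induction i with
      | zero => exact hi0
      | succ i ih =>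
        have := (low_next hU (hs (i0 + i)) ih).2
        rwa [show n0 + 329 * (i0 + i) + 332 = n0 + 329 * (i0 + (i + 1)) + 3 by ring] at this
    refine ⟨n0 + 329 * i0, Gd U (fun k => U (k + 329)) (n0 + 329 * i0), fun i => ?_⟩
    have key := halving (fun i => Gd U (fun k => U (k + 329)) (n0 + 329 * (i0 + i))) (by
      intro i
      have h1 := (low_next hU (hs (i0 + i)) (hall i)).1
      have h2 := (low_next hU (hs (i0 + (i + 1))) (hall (i + 1))).1
      have := low_contract hU hV (hs (i0 + i)) (hsV (i0 + i)) h1 (by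
        show U (n0 + 329 * (i0 + i) + 9 + 329) ≤ -70
        rwa [show n0 + 329 * (i0 + (i + 1)) + 9 = n0 + 329 * (i0 + i) + 9 + 329 by ring] at h2)
      rw [show n0 + 329 * (i0 + i) + 329 = n0 + 329 * (i0 + (i + 1)) by ring] at this
      exact this) i
    have h3 := Ad_le_Gd U (fun k => U (k + 329)) (n0 + 329 * i0 + 329 * i)
    simp only [add_zero] at key
    rw [show n0 + 329 * i0 + 329 * i = n0 + 329 * (i0 + i) by ring] at h3 ⊢
    linarith
  by_cases hhigh : ∃ i0, U (n0 + 329 * i0 + 3) ≤ -40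
  · obtain ⟨i0, hi0⟩ := hhigh
    have hall : ∀ i, U (n0 + 329 * (i0 + i) + 3) ≤ -40 := by
      intro i
      induction i with
      | zero => exact hi0
      | succ i ih =>
        have := high_next hU (hs (i0 + i)) ih
        rwa [show n0 + 329 * (i0 + i) + 332 = n0 + 329 * (i0 + (i + 1)) + 3 by ring] at this
    refine ⟨n0 + 329 * i0, Gd U (fun k => U (k + 329)) (n0 + 329 * i0), fun i => ?_⟩
    have key := halving (fun i => Gd U (fun k => U (k + 329)) (n0 + 329 * (i0 + i))) (by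
      intro i
      have h1 := hall i
      have h2 := hall (i + 1)
      have := high_contract hU hV (hs (i0 + i)) (hsV (i0 + i)) h1 (by
        show U (n0 + 329 * (i0 + i) + 3 + 329) ≤ -40
        rwa [show n0 + 329 * (i0 + (i + 1)) + 3 = n0 + 329 * (i0 + i) + 3 + 329 by ring] at h2)
      rw [show n0 + 329 * (i0 + i) + 329 = n0 + 329 * (i0 + (i + 1)) by ring] at this
      exact this) i
    have h3 := Ad_le_Gd U (fun k => U (k + 329)) (n0 + 329 * i0 + 329 * i)
    simp only [add_zero] at key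
    rw [show n0 + 329 * i0 + 329 * i = n0 + 329 * (i0 + i) by ring] at h3 ⊢
    linarith
  push Not at hlow hhigh
  -- the middle case
  have hmid : ∀ i, -3 ≤ U (n0 + 329 * i + 3) ∧ -3 ≤ U (n0 + 329 * i + 9) := by
    intro i
    apply mid_loc hU (hs i)
    · have := hhigh (i + 1)
      rwa [show n0 + 329 * (i + 1) + 3 = n0 + 329 * i + 332 by ring] at this
    · have := hlow (i + 1)
      rwa [show n0 + 329 * (i + 1) + 3 = n0 + 329 * i + 332 by ring] at this
  obtain ⟨V, hVdef⟩ : ∃ V : ℕ → ℝ, V = fun k => U (k + 329) := ⟨_, rfl⟩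
  rw [← hVdef] at hV hsV ⊢
  have hmidV : ∀ i, -3 ≤ V (n0 + 329 * i + 3) ∧ -3 ≤ V (n0 + 329 * i + 9) := by
    intro i
    have := hmid (i + 1)
    rw [hVdef]
    rwa [show n0 + 329 * (i + 1) + 3 = n0 + 329 * i + 3 + 329 by ring,
      show n0 + 329 * (i + 1) + 9 = n0 + 329 * i + 9 + 329 by ring] at this
  obtain ⟨E, hE⟩ : ∃ E : ℕ → ℝ, E = fun i => |sp (U (n0 + 329 * i)) - sp (V (n0 + 329 * i))| :=
    ⟨_, rfl⟩
  obtain ⟨Z, hZ⟩ : ∃ Z : ℕ → ℝ, Z = fun i => Zd U V (n0 + 329 * i) := ⟨_, rfl⟩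
  have hE0 : ∀ i, 0 ≤ E i := fun i => by rw [hE]; exact abs_nonneg _
  have hZ0 : ∀ i, 0 ≤ Z i := fun i => by rw [hZ]; exact Zd_nonneg _ _ _
  have hEb : ∀ i, E i ≤ 2 * LL := by
    intro i
    rw [hE]
    obtain ⟨p1, p2, -, -⟩ := hs i
    obtain ⟨q1, q2, -, -⟩ := hsV i
    have hL := LL_ge
    show |sp (U (n0 + 329 * i)) - sp (V (n0 + 329 * i))| ≤ 2 * LL
    rw [abs_le]
    constructor <;> linarith
  have hexp : ∀ i, 10 ^ 15 * Z i ≤ E i → 4 * E i ≤ E (i + 1) ∧ 10 ^ 15 * Z (i + 1) ≤ E (i + 1) := by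
    intro i hi
    rw [hE, hZ] at hi ⊢
    have := mid_expand hU hV (hs i) (hsV i) (hmid i).1 (hmidV i).1 (hmid i).2 (hmidV i).2 hi
    rw [show n0 + 329 * i + 329 = n0 + 329 * (i + 1) by ring] at this
    exact this
  have hcone : ∀ i, E i ≤ 10 ^ 15 * Z i := by
    intro i
    by_contra hcon
    push Not at hcon
    have grow : ∀ j, 4 ^ j * E i ≤ E (i + j) ∧ 10 ^ 15 * Z (i + j) ≤ E (i + j) := by
      intro j
      induction j with
      | zero => simpa using hcon.le
      | succ j ih =>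
        obtain ⟨g1, g2⟩ := hexp (i + j) ih.2
        rw [← add_assoc]
        refine ⟨?_, g2⟩
        rw [pow_succ]
        linarith [ih.1]
    have hEpos : 0 < E i := lt_of_le_of_lt (by have := hZ0 i; positivity) hcon
    obtain ⟨j, hj⟩ := pow_unbounded_of_one_lt (2 * LL / E i) (by norm_num : (1:ℝ) < 4)
    rw [div_lt_iff₀ hEpos] at hj
    have := (grow j).1
    have := hEb (i + j)
    linarith
  have hdecZ : ∀ i, Z (i + 1) ≤ 1 / 2 * Z i := by
    intro i
    obtain ⟨-, c⟩ := ret_crude hU hV (hs i) (hsV i)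
    obtain ⟨-, c2⟩ := c 40 le_rfl
    rw [show n0 + 329 * i + 9 + 8 * 40 = n0 + 329 * (i + 1) by ring] at c2
    have e := Ad_eq U V (n0 + 329 * i)
    have hc := hcone i
    have z := hZ0 i
    rw [e] at c2
    rw [hE] at hc
    rw [hZ] at hc z ⊢
    simp only at hc z ⊢
    have h1 : (1:ℝ) / 10 ^ 80 * (|sp (U (n0 + 329 * i)) - sp (V (n0 + 329 * i))| +
        Zd U V (n0 + 329 * i)) ≤ 1 / 10 ^ 80 * (10 ^ 15 * Zd U V (n0 + 329 * i) +
        Zd U V (n0 + 329 * i)) := mul_le_mul_of_nonneg_left (by linarith) (by positivity)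
    have h2 : (1:ℝ) / 10 ^ 80 * (10 ^ 15 * Zd U V (n0 + 329 * i) +
        Zd U V (n0 + 329 * i)) = (1 / 10 ^ 80 * (10 ^ 15 + 1)) * Zd U V (n0 + 329 * i) := by ring
    have h3 : ((1:ℝ) / 10 ^ 80 * (10 ^ 15 + 1)) * Zd U V (n0 + 329 * i) ≤
        1 / 2 * Zd U V (n0 + 329 * i) := mul_le_mul_of_nonneg_right (by norm_num) z
    linarith
  refine ⟨n0, (10 ^ 15 + 1) * Z 0, fun i => ?_⟩
  have h1 := halving Z hdecZ i
  have h2 := hcone i
  have e := Ad_eq U V (n0 + 329 * i)
  rw [e]
  have h3 : |sp (U (n0 + 329 * i)) - sp (V (n0 + 329 * i))| = E i := by rw [hE]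
  have h4 : Zd U V (n0 + 329 * i) = Z i := by rw [hZ]
  rw [h3, h4]
  have h5 : (10 ^ 15 + 1 : ℝ) * Z i ≤ (10 ^ 15 + 1) * ((1 / 2) ^ i * Z 0) :=
    mul_le_mul_of_nonneg_left h1 (by positivity)
  linarith

/-- The one-step differences inside a return. -/
theorem inner {U V : ℕ → ℝ} {L : ℝ} (hU : Sol L U) (hV : Sol L V) (m : ℕ) {A : ℝ}
    (hA : Ad U V m ≤ A) (j : ℕ) : |U (m + 3 + j) - V (m + 3 + j)| ≤ 2 ^ (j + 3) * A := by
  have a0 := abs_nonneg (sp (U m) - sp (V m))
  have a1 := abs_nonneg (sp (U (m + 1)) - sp (V (m + 1)))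
  have a2 := abs_nonneg (sp (U (m + 2)) - sp (V (m + 2)))
  unfold Ad at hA
  have hA0 : 0 ≤ A := by linarith
  have d : ∀ k, |U (k + 3) - V (k + 3)| ≤ |sp (U (k + 2)) - sp (V (k + 2))| +
      |sp (U k) - sp (V k)| := by
    intro k
    have : U (k + 3) - V (k + 3) = (sp (U (k + 2)) - sp (V (k + 2))) - (sp (U k) - sp (V k)) := by
      rw [hU k, hV k]; ring
    rw [this]
    exact abs_sub _ _
  have key : ∀ j, |sp (U (m + j)) - sp (V (m + j))| ≤ 2 ^ j * A ∧
      |sp (U (m + j + 1)) - sp (V (m + j + 1))| ≤ 2 ^ (j + 1) * A ∧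
      |sp (U (m + j + 2)) - sp (V (m + j + 2))| ≤ 2 ^ (j + 2) * A := by
    intro j
    induction j with
    | zero =>
      simp only [add_zero, pow_zero, zero_add, pow_one]
      refine ⟨by linarith, by linarith, ?_⟩
      norm_num
      linarith
    | succ j ih =>
      obtain ⟨i1, i2, i3⟩ := ih
      refine ⟨by rwa [← add_assoc], ?_, ?_⟩
      · rw [show m + (j + 1) + 1 = m + j + 2 by ring, show j + 1 + 1 = j + 2 by ring]
        exact i3
      · have h1 := d (m + j)
        have h2 := sp_lip (U (m + j + 3)) (V (m + j + 3))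
        rw [show m + (j + 1) + 2 = m + j + 3 by ring]
        have h3 : (2:ℝ) ^ j * A ≤ 2 ^ (j + 2) * A :=
          mul_le_mul_of_nonneg_right (pow_le_pow_right₀ (by norm_num) (by omega)) hA0
        have h4 : (2:ℝ) ^ (j + 1 + 2) * A = 2 * (2 ^ (j + 2) * A) := by ring
        rw [h4]
        linarith
  obtain ⟨k1, k2, k3⟩ := key j
  have h1 := d (m + j)
  rw [show m + 3 + j = m + j + 3 by ring]
  have h3 : (2:ℝ) ^ j * A ≤ 2 ^ (j + 2) * A :=
    mul_le_mul_of_nonneg_right (pow_le_pow_right₀ (by norm_num) (by omega)) hA0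
  have h4 : (2:ℝ) ^ (j + 3) * A = 2 * (2 ^ (j + 2) * A) := by ring
  rw [h4]
  linarith

/-- Convergence to a periodic solution in the logarithmic coordinates. -/
theorem conv {U : ℕ → ℝ} (hU : Sol LL U) {n0 : ℕ} (h : Sec U n0) :
    ∃ P : ℕ → ℝ, Sol LL P ∧ (∀ n, P (n + 329) = P n) ∧
      Tendsto (fun n => U n - P n) atTop (𝓝 0) := by
  obtain ⟨m, C, hC⟩ := decay hU h
  have hV : Sol LL (fun k => U (k + 329)) := hU.shift 329
  have hstep : ∀ r i : ℕ, dist (U (m + 3 + r + 329 * i)) (U (m + 3 + r + 329 * (i + 1))) ≤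
      2 ^ (r + 3) * C * (1 / 2) ^ i := by
    intro r i
    have := inner hU hV (m + 329 * i) (hC i) r
    rw [Real.dist_eq, show m + 3 + r + 329 * i = m + 329 * i + 3 + r by ring,
      show m + 3 + r + 329 * (i + 1) = m + 329 * i + 3 + r + 329 by ring]
    refine le_trans this (le_of_eq (by ring))
  have hex : ∀ r : ℕ, ∃ l, Tendsto (fun i => U (m + 3 + r + 329 * i)) atTop (𝓝 l) := by
    intro r
    exact cauchySeq_tendsto_of_complete (cauchySeq_of_le_geometric (1 / 2)
      (2 ^ (r + 3) * C) (by norm_num) (hstep r))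
  choose Q hQ using hex
  have hdist : ∀ r i : ℕ, dist (U (m + 3 + r + 329 * i)) (Q r) ≤
      2 ^ (r + 3) * C * (1 / 2) ^ i / (1 - 1 / 2) := fun r i =>
    dist_le_of_le_geometric_of_tendsto (1 / 2) (2 ^ (r + 3) * C) (by norm_num) (hstep r) (hQ r) i
  have hQper : ∀ r, Q (r + 329) = Q r := by
    intro r
    have h1 : Tendsto (fun i => U (m + 3 + r + 329 * (i + 1))) atTop (𝓝 (Q r)) :=
      (hQ r).comp (tendsto_add_atTop_nat 1)
    have h2 := hQ (r + 329)
    have h3 : (fun i => U (m + 3 + (r + 329) + 329 * i)) =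
        fun i => U (m + 3 + r + 329 * (i + 1)) := by
      funext i
      congr 1
      ring
    rw [h3] at h2
    exact tendsto_nhds_unique h2 h1
  have hQper' : ∀ i r, Q (r + 329 * i) = Q r := by
    intro i
    induction i with
    | zero => intro r; simp
    | succ i ih =>
      intro r
      rw [show r + 329 * (i + 1) = r + 329 * i + 329 by ring, hQper, ih]
  have hQsol : Sol LL Q := by
    intro r
    have h3 := hQ (r + 3)
    have h2 := (continuous_sp.tendsto _).comp (hQ (r + 2))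
    have h0 := (continuous_sp.tendsto _).comp (hQ r)
    have h4 : Tendsto (fun i => LL + sp (U (m + 3 + (r + 2) + 329 * i)) -
        sp (U (m + 3 + r + 329 * i))) atTop (𝓝 (LL + sp (Q (r + 2)) - sp (Q r))) :=
      (h2.const_add LL).sub h0
    have h5 : (fun i => U (m + 3 + (r + 3) + 329 * i)) = fun i =>
        LL + sp (U (m + 3 + (r + 2) + 329 * i)) - sp (U (m + 3 + r + 329 * i)) := by
      funext i
      have := hU (m + 3 + r + 329 * i)
      rw [show m + 3 + (r + 3) + 329 * i = m + 3 + r + 329 * i + 3 by ring,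
        show m + 3 + (r + 2) + 329 * i = m + 3 + r + 329 * i + 2 by ring]
      exact this
    rw [h5] at h3
    exact tendsto_nhds_unique h3 h4
  refine ⟨fun n => Q (n + 328 * (m + 3)), ?_, ?_, ?_⟩
  · have := hQsol.shift (328 * (m + 3))
    exact this
  · intro n
    show Q (n + 329 + 328 * (m + 3)) = Q (n + 328 * (m + 3))
    rw [show n + 329 + 328 * (m + 3) = n + 328 * (m + 3) + 329 by ring, hQper]
  · have hC0 : 0 ≤ C := by
      have := Ad_nonneg U (fun k => U (k + 329)) (m + 329 * 0)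
      have h1 := hC 0
      simp only [pow_zero, mul_one] at h1
      linarith
    have hgoal : Tendsto (fun k => U (k + (m + 3)) - Q (k + (m + 3) + 328 * (m + 3))) atTop
        (𝓝 0) := by
      rw [tendsto_zero_iff_abs_tendsto_zero]
      have hb : ∀ k : ℕ, |U (k + (m + 3)) - Q (k + (m + 3) + 328 * (m + 3))| ≤
          (2 ^ 332 * C * 2) * (1 / 2) ^ (k / 329) := by
        intro k
        have e1 : Q (k + (m + 3) + 328 * (m + 3)) = Q (k % 329) := by
          have hk : k = k % 329 + 329 * (k / 329) := (Nat.mod_add_div k 329).symm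
          rw [show k + (m + 3) + 328 * (m + 3) = k + 329 * (m + 3) by ring, hQper']
          conv_lhs => rw [hk]
          exact hQper' _ _
        have e2 : k + (m + 3) = m + 3 + k % 329 + 329 * (k / 329) := by
          have hk : k = k % 329 + 329 * (k / 329) := (Nat.mod_add_div k 329).symm
          omega
        rw [e1]
        conv_lhs => rw [e2]
        have := hdist (k % 329) (k / 329)
        rw [Real.dist_eq] at this
        refine le_trans this ?_
        have hr : k % 329 + 3 ≤ 332 := by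
          have := Nat.mod_lt k (by norm_num : 0 < 329)
          omega
        have hp : (2:ℝ) ^ (k % 329 + 3) ≤ 2 ^ 332 := pow_le_pow_right₀ (by norm_num) hr
        have e3 : (2:ℝ) ^ (k % 329 + 3) * C * (1 / 2) ^ (k / 329) / (1 - 1 / 2) =
            2 ^ (k % 329 + 3) * (C * 2 * (1 / 2) ^ (k / 329)) := by ring
        have e4 : ((2:ℝ) ^ 332 * C * 2) * (1 / 2) ^ (k / 329) =
            2 ^ 332 * (C * 2 * (1 / 2) ^ (k / 329)) := by ring
        rw [e3, e4]
        exact mul_le_mul_of_nonneg_right hp (by positivity)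
      have hlim : Tendsto (fun k : ℕ => (2 ^ 332 * C * 2) * (1 / 2 : ℝ) ^ (k / 329)) atTop
          (𝓝 0) := by
        have h1 : Tendsto (fun i : ℕ => (1 / 2 : ℝ) ^ i) atTop (𝓝 0) :=
          tendsto_pow_atTop_nhds_zero_of_lt_one (by norm_num) (by norm_num)
        have h2 : Tendsto (fun k : ℕ => k / 329) atTop atTop :=
          Nat.tendsto_div_const_atTop (by norm_num)
        have h3 := (h1.comp h2).const_mul (2 ^ 332 * C * 2)
        rw [mul_zero] at h3
        exact h3
      exact squeeze_zero (fun _ => abs_nonneg _) hb hlim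
    exact (tendsto_add_atTop_iff_nat (m + 3)).mp hgoal

end Helper68.Rec
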