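import Pool.Agent.Helper68.Rec.Section

/-!
Differences of two solutions in the section.
-/

namespace Helper68.Rec

open Filter Topology

theorem sp_lip (x y : ℝ) : |sp x - sp y| ≤ |x - y| := by
  obtain ⟨l, hl, hl'⟩ := secant x y
  obtain ⟨h1, h2⟩ := hl' (min x y) (max x y) (min_le_left _ _) (min_le_right _ _)
    (le_max_left _ _) (le_max_right _ _)
  have h3 := sg_pos (min x y)
  have h4 := sg_lt_one (max x y)
  rw [hl, abs_mul, abs_of_nonneg (by linarith)]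
  have := abs_nonneg (x - y)
  nlinarith

theorem sp_diff_le {x y b c : ℝ} (hx : x ≤ b) (hy : y ≤ b) (hc : Real.exp b ≤ c) :
    |sp x - sp y| ≤ c * |x - y| := by
  obtain ⟨l, hl, hl'⟩ := secant x y
  obtain ⟨h1, h2⟩ := hl' (min x y) b (min_le_left _ _) (min_le_right _ _) hx hy
  have h3 := sg_pos (min x y)
  have h4 := sg_le_exp b
  rw [hl, abs_mul, abs_of_nonneg (by linarith)]
  exact mul_le_mul_of_nonneg_right (by linarith) (abs_nonneg _)

theorem sp_diff_ge {x y a c : ℝ} (hx : a ≤ x) (hy : a ≤ y) (hc : c ≤ sg a) :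
    c * |x - y| ≤ |sp x - sp y| := by
  obtain ⟨l, hl, hl'⟩ := secant x y
  obtain ⟨h1, h2⟩ := hl' a (max x y) hx hy (le_max_left _ _) (le_max_right _ _)
  have h3 := sg_pos a
  rw [hl, abs_mul, abs_of_nonneg (a := l) (by linarith)]
  exact mul_le_mul_of_nonneg_right (by linarith) (abs_nonneg _)

theorem sp_diff_big {L x y : ℝ} (hx : L / 20 ≤ x) (hy : L / 20 ≤ y) :
    |(sp x - sp y) - (x - y)| ≤ tau L * |x - y| := by
  obtain ⟨l, hl, hl'⟩ := secant x y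
  obtain ⟨h1, h2⟩ := hl' (L / 20) (max x y) hx hy (le_max_left _ _) (le_max_right _ _)
  have h3 := one_sub_exp_neg_le_sg (L / 20)
  have h4 := sg_lt_one (max x y)
  rw [hl, show l * (x - y) - (x - y) = (l - 1) * (x - y) by ring, abs_mul]
  apply mul_le_mul_of_nonneg_right _ (abs_nonneg _)
  rw [abs_le]
  unfold tau
  constructor <;> linarith

theorem sp_diff_small {L x y : ℝ} (hx : x ≤ -(L / 20)) (hy : y ≤ -(L / 20)) :
    |sp x - sp y| ≤ tau L * |x - y| := sp_diff_le hx hy le_rfl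

/-- linear algebra behind the block estimate -/
theorem block_lin {t M E0 E1 E2 E3 E4 E5 E6 E7 E8 E9 E10 D3 D4 D5 D6 D7 D8 D9 D10 : ℝ}
    (ht0 : 0 ≤ t) (ht : t ≤ 1 / 1000) (hM : |E0| + |E1| + |E2| ≤ M)
    (d3 : D3 = E2 - E0) (d4 : D4 = E3 - E1) (d5 : D5 = E4 - E2) (d6 : D6 = E5 - E3)
    (d7 : D7 = E6 - E4) (d8 : D8 = E7 - E5) (d9 : D9 = E8 - E6) (d10 : D10 = E9 - E7)
    (l3 : |E3| ≤ |D3|) (l4 : |E4| ≤ |D4|) (l5 : |E5| ≤ |D5|) (l6 : |E6| ≤ |D6|)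
    (l7 : |E7| ≤ |D7|) (l8 : |E8| ≤ |D8|) (l9 : |E9| ≤ t * |D9|) (l10 : |E10| ≤ t * |D10|)
    (k3 : |E3 - D3| ≤ t * |D3|) (k4 : |E4 - D4| ≤ t * |D4|)
    (k6 : |E6 - D6| ≤ t * |D6|) (k7 : |E7 - D7| ≤ t * |D7|) :
    |D8 - (2 * E0 + E1 - 2 * E2)| ≤ 14 * (t * M) ∧ |E9| + |E10| ≤ 20 * (t * M) := by
  have a0 := abs_nonneg E0
  have a1 := abs_nonneg E1
  have a2 := abs_nonneg E2
  have c0 := abs_le.mp (le_refl |E0|)
  have c1 := abs_le.mp (le_refl |E1|)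
  have c2 := abs_le.mp (le_refl |E2|)
  have hMn : 0 ≤ M := by linarith
  have f3 : |D3| ≤ M := by
    rw [d3, abs_le]; constructor <;> linarith [c0.1, c0.2, c2.1, c2.2]
  obtain ⟨g3a, g3b⟩ := abs_le.mp (le_trans l3 f3)
  have f4 : |D4| ≤ 2 * M := by
    rw [d4, abs_le]; constructor <;> linarith [c1.1, c1.2]
  obtain ⟨g4a, g4b⟩ := abs_le.mp (le_trans l4 f4)
  have f5 : |D5| ≤ 3 * M := by
    rw [d5, abs_le]; constructor <;> linarith [c2.1, c2.2]
  obtain ⟨g5a, g5b⟩ := abs_le.mp (le_trans l5 f5)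
  have f6 : |D6| ≤ 4 * M := by
    rw [d6, abs_le]; constructor <;> linarith
  obtain ⟨g6a, g6b⟩ := abs_le.mp (le_trans l6 f6)
  have f7 : |D7| ≤ 6 * M := by
    rw [d7, abs_le]; constructor <;> linarith
  obtain ⟨g7a, g7b⟩ := abs_le.mp (le_trans l7 f7)
  have f8 : |D8| ≤ 9 * M := by
    rw [d8, abs_le]; constructor <;> linarith
  obtain ⟨g8a, g8b⟩ := abs_le.mp (le_trans l8 f8)
  have f9 : |D9| ≤ 13 * M := by
    rw [d9, abs_le]; constructor <;> linarith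
  have g9 : |E9| ≤ t * (13 * M) := le_trans l9 (mul_le_mul_of_nonneg_left f9 ht0)
  have hM1 : t * M ≤ 1 / 1000 * M := mul_le_mul_of_nonneg_right ht hMn
  have g9' : |E9| ≤ M := by
    have : t * (13 * M) = 13 * (t * M) := by ring
    linarith
  obtain ⟨g9a, g9b⟩ := abs_le.mp g9'
  have f10 : |D10| ≤ 7 * M := by
    rw [d10, abs_le]; constructor <;> linarith
  have g10 : |E10| ≤ t * (7 * M) := le_trans l10 (mul_le_mul_of_nonneg_left f10 ht0)
  constructor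
  · have q3 : |E3 - D3| ≤ t * M := le_trans k3 (mul_le_mul_of_nonneg_left f3 ht0)
    have q4 : |E4 - D4| ≤ t * (2 * M) := le_trans k4 (mul_le_mul_of_nonneg_left f4 ht0)
    have q6 : |E6 - D6| ≤ t * (4 * M) := le_trans k6 (mul_le_mul_of_nonneg_left f6 ht0)
    have q7 : |E7 - D7| ≤ t * (6 * M) := le_trans k7 (mul_le_mul_of_nonneg_left f7 ht0)
    rw [show t * (2 * M) = 2 * (t * M) by ring] at q4
    rw [show t * (4 * M) = 4 * (t * M) by ring] at q6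
    rw [show t * (6 * M) = 6 * (t * M) by ring] at q7
    clear f3 f4 f5 f6 f7 f8 f9 f10 l3 l4 l5 l6 l7 l8 l9 l10 k3 k4 k6 k7 g9 g10
    generalize t * M = m at *
    obtain ⟨q3a, q3b⟩ := abs_le.mp q3
    obtain ⟨q4a, q4b⟩ := abs_le.mp q4
    obtain ⟨q6a, q6b⟩ := abs_le.mp q6
    obtain ⟨q7a, q7b⟩ := abs_le.mp q7
    rw [abs_le]
    constructor <;> linarith
  · have h1 : t * (13 * M) + t * (7 * M) = 20 * (t * M) := by ring
    linarith

/-- differences in a block -/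
theorem block_diff {L : ℝ} {U V : ℕ → ℝ} (hU : Sol L U) (hV : Sol L V)
    (ht : tau L ≤ 1 / 1000) (M : ℝ)
    (u3 : L / 20 ≤ U 3) (u4 : L / 20 ≤ U 4) (u5 : L / 20 ≤ U 5) (u6 : L / 20 ≤ U 6)
    (u7 : L / 20 ≤ U 7) (u9 : U 9 ≤ -(L / 20)) (u10 : U 10 ≤ -(L / 20))
    (v3 : L / 20 ≤ V 3) (v4 : L / 20 ≤ V 4) (v5 : L / 20 ≤ V 5) (v6 : L / 20 ≤ V 6)
    (v7 : L / 20 ≤ V 7) (v9 : V 9 ≤ -(L / 20)) (v10 : V 10 ≤ -(L / 20))
    (hM : |sp (U 0) - sp (V 0)| + |sp (U 1) - sp (V 1)| + |sp (U 2) - sp (V 2)| ≤ M) :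
    |(U 8 - V 8) - (2 * (sp (U 0) - sp (V 0)) + (sp (U 1) - sp (V 1))
      - 2 * (sp (U 2) - sp (V 2)))| ≤ 14 * tau L * M ∧
    |sp (U 9) - sp (V 9)| + |sp (U 10) - sp (V 10)| ≤ 20 * tau L * M := by
  have htp := tau_pos L
  have key := block_lin (D3 := U 3 - V 3) (D4 := U 4 - V 4) (D5 := U 5 - V 5)
    (D6 := U 6 - V 6) (D7 := U 7 - V 7) (D8 := U 8 - V 8) (D9 := U 9 - V 9)
    (D10 := U 10 - V 10) htp.le ht hM (by rw [hU 0, hV 0]; ring) (by rw [hU 1, hV 1]; ring)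
    (by rw [hU 2, hV 2]; ring) (by rw [hU 3, hV 3]; ring) (by rw [hU 4, hV 4]; ring)
    (by rw [hU 5, hV 5]; ring) (by rw [hU 6, hV 6]; ring) (by rw [hU 7, hV 7]; ring)
    (sp_lip _ _) (sp_lip _ _) (sp_lip _ _) (sp_lip _ _) (sp_lip _ _) (sp_lip _ _)
    (sp_diff_small u9 v9) (sp_diff_small u10 v10) (sp_diff_big u3 v3) (sp_diff_big u4 v4)
    (sp_diff_big u6 v6) (sp_diff_big u7 v7)
  rw [mul_assoc, mul_assoc]
  exact key

/-- total difference at time `n` -/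
noncomputable def Ad (U V : ℕ → ℝ) (n : ℕ) : ℝ :=
  |sp (U n) - sp (V n)| + (|sp (U (n + 1)) - sp (V (n + 1))| + |sp (U (n + 2)) - sp (V (n + 2))|)

/-- transverse difference at time `n` -/
noncomputable def Zd (U V : ℕ → ℝ) (n : ℕ) : ℝ :=
  |sp (U (n + 1)) - sp (V (n + 1))| + |sp (U (n + 2)) - sp (V (n + 2))|

theorem Zd_nonneg (U V : ℕ → ℝ) (n : ℕ) : 0 ≤ Zd U V n := by unfold Zd; positivity

theorem Ad_eq (U V : ℕ → ℝ) (n : ℕ) : Ad U V n = |sp (U n) - sp (V n)| + Zd U V n := rfl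

theorem Ad_nonneg (U V : ℕ → ℝ) (n : ℕ) : 0 ≤ Ad U V n := by unfold Ad; positivity

theorem tau_LL' : tau LL ≤ 1 / 1000 := le_trans tau_LL (by norm_num)

/-- differences in an r-block -/
theorem rblock_diff {U V : ℕ → ℝ} (hU : Sol LL U) (hV : Sol LL V) (n : ℕ)
    (u0 : sp (U n) ≤ 17 / 20 * LL) (u1 : U (n + 1) ≤ -(LL / 20)) (u2 : U (n + 2) ≤ -(LL / 20))
    (v0 : sp (V n) ≤ 17 / 20 * LL) (v1 : V (n + 1) ≤ -(LL / 20)) (v2 : V (n + 2) ≤ -(LL / 20)) :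
    |(U (n + 8) - V (n + 8)) - 2 * (sp (U n) - sp (V n))| ≤
      2 * Zd U V n + 14 * tau LL * Ad U V n ∧
    Zd U V (n + 8) ≤ 20 * tau LL * Ad U V n := by
  have hL := LL_ge
  have ht := tau_LL'
  have su1 := sp_small u1
  have su2 := sp_small u2
  have sv1 := sp_small v1
  have sv2 := sp_small v2
  obtain ⟨⟨_, a9, a10⟩, a3, a4, a5, a6, a7⟩ := block (hU.shift n) LL_ge'
    (by simpa using u0) (by simpa [add_comm] using su1)
    (by have : sp (U (n + 2)) ≤ 2 / 5 * LL := by linarith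
        simpa [add_comm] using this)
  obtain ⟨⟨_, b9, b10⟩, b3, b4, b5, b6, b7⟩ := block (hV.shift n) LL_ge'
    (by simpa using v0) (by simpa [add_comm] using sv1)
    (by have : sp (V (n + 2)) ≤ 2 / 5 * LL := by linarith
        simpa [add_comm] using this)
  have key := block_diff (hU.shift n) (hV.shift n) ht (Ad U V n) a3 a4 a5 a6 a7 a9 a10
    b3 b4 b5 b6 b7 b9 b10 (by
      simp only [zero_add, show 1 + n = n + 1 by ring, show 2 + n = n + 2 by ring]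
      unfold Ad
      linarith)
  simp only [zero_add, show 1 + n = n + 1 by ring, show 2 + n = n + 2 by ring,
    show 8 + n = n + 8 by ring, show 9 + n = n + 9 by ring,
    show 10 + n = n + 10 by ring] at key
  obtain ⟨k1, k2⟩ := key
  refine ⟨?_, by unfold Zd; exact k2⟩
  have c1 := abs_le.mp (le_refl |sp (U (n + 1)) - sp (V (n + 1))|)
  have c2 := abs_le.mp (le_refl |sp (U (n + 2)) - sp (V (n + 2))|)
  have a1 := abs_nonneg (sp (U (n + 1)) - sp (V (n + 1)))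
  unfold Zd
  rw [abs_le] at k1 ⊢
  constructor <;> linarith [k1.1, k1.2, c1.1, c1.2, c2.1, c2.2]

/-- growth of differences along the return -/
theorem ret_diff {U V : ℕ → ℝ} (hU : Sol LL U) (hV : Sol LL V) {n : ℕ} (hsU : Sec U n)
    (hsV : Sec V n) :
    ∀ j ≤ 40, Ad U V (n + 9 + 8 * j) ≤ (21 / 10) ^ j * Ad U V (n + 9) ∧
      (1 ≤ j → Zd U V (n + 9 + 8 * j) ≤ 20 * tau LL * ((21 / 10) ^ j * Ad U V (n + 9))) := by
  intro j
  induction j with
  | zero => intro _; exact ⟨by simp, fun h => absurd h (by norm_num)⟩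
  | succ j ih =>
    intro hj
    obtain ⟨ih1, _⟩ := ih (by omega)
    obtain ⟨a, b, c⟩ := ret_chain hU hsU j (by omega)
    obtain ⟨a', b', c'⟩ := ret_chain hV hsV j (by omega)
    obtain ⟨r1, r2⟩ := rblock_diff hU hV (n + 9 + 8 * j) a b c a' b' c'
    have ht := tau_LL'
    have htp := tau_pos LL
    have hA := Ad_nonneg U V (n + 9 + 8 * j)
    have hZ := Zd_nonneg U V (n + 9 + 8 * j)
    have e1 := Ad_eq U V (n + 9 + 8 * j)
    have e2 := Ad_eq U V (n + 9 + 8 * j + 8)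
    have l := sp_lip (U (n + 9 + 8 * j + 8)) (V (n + 9 + 8 * j + 8))
    have m1 : |U (n + 9 + 8 * j + 8) - V (n + 9 + 8 * j + 8)| ≤
        2 * |sp (U (n + 9 + 8 * j)) - sp (V (n + 9 + 8 * j))| +
        (2 * Zd U V (n + 9 + 8 * j) + 14 * tau LL * Ad U V (n + 9 + 8 * j)) := by
      have c0 := abs_le.mp (le_refl |sp (U (n + 9 + 8 * j)) - sp (V (n + 9 + 8 * j))|)
      rw [abs_le] at r1 ⊢
      constructor <;> linarith [r1.1, r1.2, c0.1, c0.2]
    have m2 : tau LL * Ad U V (n + 9 + 8 * j) ≤ 1 / 1000 * Ad U V (n + 9 + 8 * j) :=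
      mul_le_mul_of_nonneg_right ht hA
    rw [show n + 9 + 8 * (j + 1) = n + 9 + 8 * j + 8 by ring]
    have m3 : Ad U V (n + 9 + 8 * j + 8) ≤ 21 / 10 * Ad U V (n + 9 + 8 * j) := by
      linarith
    have m4 : (21 / 10 : ℝ) ^ (j + 1) * Ad U V (n + 9) =
        21 / 10 * ((21 / 10) ^ j * Ad U V (n + 9)) := by ring
    refine ⟨by rw [m4]; linarith, fun _ => ?_⟩
    rw [m4]
    refine le_trans r2 ?_
    apply mul_le_mul_of_nonneg_left _ (by positivity)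
    linarith

theorem pow21 {j : ℕ} (h : j ≤ 40) : (21 / 10 : ℝ) ^ j ≤ 10 ^ 13 := by
  calc (21 / 10 : ℝ) ^ j ≤ (21 / 10) ^ 40 := pow_le_pow_right₀ (by norm_num) h
    _ ≤ _ := by norm_num

/-- differences across the reset step and its block -/
theorem zstep_diff {U V : ℕ → ℝ} (hU : Sol LL U) (hV : Sol LL V) {n : ℕ} (hsU : Sec U n)
    (hsV : Sec V n) :
    |(U (n + 9) - V (n + 9)) + 2 * (sp (U (n + 3)) - sp (V (n + 3)))| ≤
      2 * Zd U V n + 28 * tau LL * Ad U V n ∧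
    Zd U V (n + 9) ≤ 40 * tau LL * Ad U V n ∧
    |(U (n + 3) - V (n + 3)) + (sp (U n) - sp (V n))| ≤ Zd U V n := by
  have hL := LL_ge
  have ht := tau_LL'
  have htp := tau_pos LL
  obtain ⟨_, _, _, gU⟩ := zstep hU hsU
  obtain ⟨_, _, _, gV⟩ := zstep hV hsV
  have su1 := sp_small hsU.2.2.1
  have su2 := sp_small hsU.2.2.2
  have sv1 := sp_small hsV.2.2.1
  have sv2 := sp_small hsV.2.2.2
  obtain ⟨⟨_, a9, a10⟩, a3, a4, a5, a6, a7⟩ := block (hU.shift (n + 1)) LL_ge'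
    (by simp only [zero_add]; linarith)
    (by rw [show 1 + (n + 1) = n + 2 by ring]; exact su2)
    (by rw [show 2 + (n + 1) = n + 3 by ring]; exact gU)
  obtain ⟨⟨_, b9, b10⟩, b3, b4, b5, b6, b7⟩ := block (hV.shift (n + 1)) LL_ge'
    (by simp only [zero_add]; linarith)
    (by rw [show 1 + (n + 1) = n + 2 by ring]; exact sv2)
    (by rw [show 2 + (n + 1) = n + 3 by ring]; exact gV)
  have d3 : U (n + 3) - V (n + 3) =
      (sp (U (n + 2)) - sp (V (n + 2))) - (sp (U n) - sp (V n)) := by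
    rw [hU n, hV n]; ring
  have l3 := sp_lip (U (n + 3)) (V (n + 3))
  have c0 := abs_le.mp (le_refl |sp (U n) - sp (V n)|)
  have c1 := abs_le.mp (le_refl |sp (U (n + 1)) - sp (V (n + 1))|)
  have c2 := abs_le.mp (le_refl |sp (U (n + 2)) - sp (V (n + 2))|)
  have n0 := abs_nonneg (sp (U n) - sp (V n))
  have n1 := abs_nonneg (sp (U (n + 1)) - sp (V (n + 1)))
  have n2 := abs_nonneg (sp (U (n + 2)) - sp (V (n + 2)))
  have f3 : |U (n + 3) - V (n + 3)| ≤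
      |sp (U n) - sp (V n)| + |sp (U (n + 2)) - sp (V (n + 2))| := by
    rw [d3, abs_le]
    constructor <;> linarith [c0.1, c0.2, c2.1, c2.2]
  have key := block_diff (hU.shift (n + 1)) (hV.shift (n + 1)) ht (2 * Ad U V n)
    a3 a4 a5 a6 a7 a9 a10 b3 b4 b5 b6 b7 b9 b10 (by
      simp only [zero_add, show 1 + (n + 1) = n + 2 by ring, show 2 + (n + 1) = n + 3 by ring]
      unfold Ad
      linarith)
  simp only [zero_add, show 1 + (n + 1) = n + 2 by ring, show 2 + (n + 1) = n + 3 by ring,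
    show 8 + (n + 1) = n + 9 by ring, show 9 + (n + 1) = n + 10 by ring,
    show 10 + (n + 1) = n + 11 by ring] at key
  obtain ⟨k1, k2⟩ := key
  refine ⟨?_, ?_, ?_⟩
  · unfold Zd
    rw [abs_le] at k1 ⊢
    constructor <;> linarith [k1.1, k1.2, c1.1, c1.2, c2.1, c2.2]
  · unfold Zd
    rw [show n + 9 + 1 = n + 10 by ring, show n + 9 + 2 = n + 11 by ring]
    linarith
  · unfold Zd
    rw [d3, abs_le]
    constructor <;> linarith [c2.1, c2.2]

/-- crude bounds at the return -/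
theorem ret_crude {U V : ℕ → ℝ} (hU : Sol LL U) (hV : Sol LL V) {n : ℕ} (hsU : Sec U n)
    (hsV : Sec V n) :
    Ad U V (n + 9) ≤ 5 * Ad U V n ∧
    (∀ j ≤ 40, Ad U V (n + 9 + 8 * j) ≤ 10 ^ 14 * Ad U V n ∧
      Zd U V (n + 9 + 8 * j) ≤ 1 / 10 ^ 80 * Ad U V n) := by
  obtain ⟨z1, z2, z3⟩ := zstep_diff hU hV hsU hsV
  have ht := tau_LL'
  have ht2 := tau_LL
  have htp := tau_pos LL
  have hA := Ad_nonneg U V n
  have hZ := Zd_nonneg U V n
  have e := Ad_eq U V n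
  have e9 := Ad_eq U V (n + 9)
  have l3 := sp_lip (U (n + 3)) (V (n + 3))
  have l9 := sp_lip (U (n + 9)) (V (n + 9))
  have c3 := abs_le.mp (le_refl |sp (U (n + 3)) - sp (V (n + 3))|)
  have c0 := abs_le.mp (le_refl |sp (U n) - sp (V n)|)
  have f3 : |U (n + 3) - V (n + 3)| ≤ Ad U V n := by
    rw [abs_le] at z3 ⊢
    constructor <;> linarith [z3.1, z3.2, c0.1, c0.2]
  have hAt : tau LL * Ad U V n ≤ 1 / 1000 * Ad U V n := mul_le_mul_of_nonneg_right ht hA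
  have hAt2 : tau LL * Ad U V n ≤ 1 / 10 ^ 100 * Ad U V n := mul_le_mul_of_nonneg_right ht2 hA
  have n0 := abs_nonneg (sp (U n) - sp (V n))
  have f9 : |U (n + 9) - V (n + 9)| ≤ 4 * Ad U V n + 28 * (1 / 1000 * Ad U V n) := by
    rw [abs_le] at z1 ⊢
    constructor <;> linarith [z1.1, z1.2, c3.1, c3.2]
  have h9 : Ad U V (n + 9) ≤ 5 * Ad U V n := by linarith
  refine ⟨h9, ?_⟩
  intro j hj
  obtain ⟨r1, r2⟩ := ret_diff hU hV hsU hsV j hj
  have hp := pow21 hj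
  have hA9 := Ad_nonneg U V (n + 9)
  have hb : (21 / 10 : ℝ) ^ j * Ad U V (n + 9) ≤ 10 ^ 14 * Ad U V n := by
    calc (21 / 10 : ℝ) ^ j * Ad U V (n + 9) ≤ 10 ^ 13 * (5 * Ad U V n) :=
          mul_le_mul hp h9 hA9 (by positivity)
      _ ≤ _ := by linarith
  refine ⟨le_trans r1 hb, ?_⟩
  rcases Nat.eq_zero_or_pos j with hj0 | hj0
  · subst hj0
    simp only [mul_zero, add_zero]
    have h1 : (40:ℝ) * (1 / 10 ^ 100) ≤ 1 / 10 ^ 80 := by norm_num
    have h2 : (40:ℝ) * (1 / 10 ^ 100) * Ad U V n ≤ 1 / 10 ^ 80 * Ad U V n :=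
      mul_le_mul_of_nonneg_right h1 hA
    linarith
  · have h1 := r2 hj0
    have h2 : 20 * tau LL * ((21 / 10) ^ j * Ad U V (n + 9)) ≤
        20 * (1 / 10 ^ 100) * (10 ^ 14 * Ad U V n) :=
      mul_le_mul (by linarith) hb (by positivity) (by norm_num)
    have h3 : (20:ℝ) * (1 / 10 ^ 100) * 10 ^ 14 ≤ 1 / 10 ^ 80 := by norm_num
    have h4 : (20:ℝ) * (1 / 10 ^ 100) * 10 ^ 14 * Ad U V n ≤ 1 / 10 ^ 80 * Ad U V n :=
      mul_le_mul_of_nonneg_right h3 hA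
    linarith

end Helper68.Rec
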