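import Pool.Agent.Helper68.Rec.Sp

/-!
Bounded solutions of perturbed versions of the linear recurrence
`z (n+3) = z (n+2) - z n` tend to zero.
-/

namespace Helper68.Rec

open Filter Topology

/-- One halving step. -/
theorem lin_halve (z l : ℕ → ℝ) (hrec : ∀ n, z (n + 3) = l (n + 2) * z (n + 2) - l n * z n)
    (hl : ∀ n, |1 - l n| ≤ 1 / 10000) (M : ℝ) (hM : 0 ≤ M) (hz : ∀ n, |z n| ≤ M) :
    ∀ n, |z (n + 3)| ≤ M / 2 := by
  -- v n = z (n+1) + s z n
  set v : ℕ → ℝ := fun n => z (n + 1) + 755 / 1000 * z n with hv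
  set h : ℕ → ℝ := fun n => v (n + 2) - 1755 / 1000 * v (n + 1) + 1325025 / 1000000 * v n with hh
  have hhb : ∀ n, |h n| ≤ 6 / 10000 * M := by
    intro n
    have e : h n = -(1 - l (n + 2)) * z (n + 2) + (1 - l n) * z n
        + 393875 / 1000000000 * z n := by
      simp only [hh, hv]
      rw [show n + 2 + 1 = n + 3 by ring, show n + 1 + 1 = n + 2 by ring, hrec n]
      ring
    rw [e]
    have h1 : |(-(1 - l (n + 2))) * z (n + 2)| ≤ 1 / 10000 * M := by
      rw [abs_mul, abs_neg]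
      exact mul_le_mul (hl _) (hz _) (abs_nonneg _) (by norm_num)
    have h2 : |(1 - l n) * z n| ≤ 1 / 10000 * M := by
      rw [abs_mul]
      exact mul_le_mul (hl _) (hz _) (abs_nonneg _) (by norm_num)
    have h3 := hz n
    rw [abs_le] at h1 h2 h3 ⊢
    constructor <;> linarith [h1.1, h1.2, h2.1, h2.2, h3.1, h3.2]
  set Q : ℕ → ℝ := fun n => v (n + 1) ^ 2 - 1755 / 1000 * v (n + 1) * v n
    + 1325025 / 1000000 * v n ^ 2 with hQ
  have hQrec : ∀ n, 13 / 10 * Q n - 61 * (h n) ^ 2 ≤ Q (n + 1) := by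
    intro n
    have e : v (n + 2) = 1755 / 1000 * v (n + 1) - 1325025 / 1000000 * v n + h n := by
      simp only [hh]; ring
    simp only [hQ]
    rw [show n + 1 + 1 = n + 2 by ring, e]
    nlinarith [sq_nonneg (v (n + 1)), sq_nonneg (1755 / 1000 * v (n + 1)
      - 2 * 1325025 / 1000000 * v n + 100 * h n), sq_nonneg (h n)]
  have hvb : ∀ n, |v n| ≤ 2 * M := by
    intro n
    have h1 := hz n
    have h2 := hz (n + 1)
    simp only [hv]
    rw [abs_le] at h1 h2 ⊢
    constructor <;> linarith [h1.1, h1.2, h2.1, h2.2]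
  have hQb : ∀ n, Q n ≤ 18 * M ^ 2 := by
    intro n
    have h1 := hvb n
    have h2 := hvb (n + 1)
    have h3 : |v (n + 1) * v n| ≤ 4 * M ^ 2 := by
      rw [abs_mul]
      nlinarith [abs_nonneg (v n), abs_nonneg (v (n + 1))]
    have h4 : v n ^ 2 ≤ 4 * M ^ 2 := by
      rw [← sq_abs]; nlinarith [abs_nonneg (v n)]
    have h5 : v (n + 1) ^ 2 ≤ 4 * M ^ 2 := by
      rw [← sq_abs]; nlinarith [abs_nonneg (v (n + 1))]
    simp only [hQ]
    rw [abs_le] at h3
    nlinarith [h3.1, h3.2, sq_nonneg M]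
  -- Q n is small
  have hQs : ∀ n, Q n ≤ 204 * (6 / 10000 * M) ^ 2 := by
    intro n
    by_contra hcon
    push Not at hcon
    set A : ℝ := Q n - 204 * (6 / 10000 * M) ^ 2 with hA
    have hApos : 0 < A := by linarith
    have hgrow : ∀ j : ℕ, (13 / 10 : ℝ) ^ j * A ≤ Q (n + j) - 204 * (6 / 10000 * M) ^ 2 := by
      intro j
      induction j with
      | zero => simp [hA]
      | succ j ih =>
        have h1 := hQrec (n + j)
        have h2 : (h (n + j)) ^ 2 ≤ (6 / 10000 * M) ^ 2 := by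
          rw [← sq_abs (h (n + j))]
          exact pow_le_pow_left₀ (abs_nonneg _) (hhb _) 2
        rw [show n + (j + 1) = n + j + 1 by ring, pow_succ]
        nlinarith
    obtain ⟨j, hj⟩ := pow_unbounded_of_one_lt (18 * M ^ 2 / A) (show (1:ℝ) < 13 / 10 by norm_num)
    have h1 := hgrow j
    have h2 := hQb (n + j)
    rw [div_lt_iff₀ hApos] at hj
    nlinarith [sq_nonneg (6 / 10000 * M)]
  have hvs : ∀ n, |v n| ≤ 13 / 1000 * M := by
    intro n
    have h1 := hQs n
    have h2 : 2 * v n ^ 2 ≤ 4 * Q n := by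
      simp only [hQ]
      nlinarith [sq_nonneg (2 * v (n + 1) - 1755 / 1000 * v n), sq_nonneg (v n)]
    have h4 : v n ^ 2 ≤ 2 * 204 * (6 / 10000 * M) ^ 2 := by linarith
    apply abs_le_of_sq_le_sq _ (by positivity)
    nlinarith [sq_nonneg M]
  intro n
  have e1 : z (n + 1) = v n - 755 / 1000 * z n := by simp only [hv]; ring
  have e2 : z (n + 2) = v (n + 1) - 755 / 1000 * z (n + 1) := by simp only [hv]; ring
  have e3 : z (n + 3) = v (n + 2) - 755 / 1000 * z (n + 2) := by simp only [hv]; ring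
  have h0 := hz n
  have h1 := hvs n
  have h2 := hvs (n + 1)
  have h3 := hvs (n + 2)
  rw [abs_le] at h0 h1 h2 h3 ⊢
  rw [e3, e2, e1]
  constructor <;> linarith [h0.1, h0.2, h1.1, h1.2, h2.1, h2.2, h3.1, h3.2]

theorem lin_tendsto (z l : ℕ → ℝ)
    (hrec : ∀ n, z (n + 3) = l (n + 2) * z (n + 2) - l n * z n)
    (hl : ∀ n, |1 - l n| ≤ 1 / 10000) (M : ℝ) (hz : ∀ n, |z n| ≤ M) :
    Tendsto z atTop (𝓝 0) := by
  have hM : 0 ≤ M := le_trans (abs_nonneg _) (hz 0)
  have key : ∀ i : ℕ, ∀ n, |z (n + 3 * i)| ≤ M * (1 / 2) ^ i := by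
    intro i
    induction i with
    | zero => simpa using hz
    | succ i ih =>
      have := lin_halve (fun n => z (n + 3 * i)) (fun n => l (n + 3 * i)) (fun n => by
        have := hrec (n + 3 * i)
        simpa [show n + 3 * i + 3 = n + 3 + 3 * i by ring,
          show n + 3 * i + 2 = n + 2 + 3 * i by ring] using this) (fun n => hl _)
        (M * (1 / 2) ^ i) (by positivity) ih
      intro n
      have h := this n
      rw [show n + 3 * (i + 1) = n + 3 + 3 * i by ring, pow_succ]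
      calc |z (n + 3 + 3 * i)| ≤ M * (1 / 2) ^ i / 2 := h
        _ = _ := by ring
  rw [Metric.tendsto_atTop]
  intro ε hε
  obtain ⟨i, hi⟩ : ∃ i : ℕ, M * (1 / 2) ^ i < ε := by
    have : Tendsto (fun i : ℕ => M * (1 / 2 : ℝ) ^ i) atTop (𝓝 (M * 0)) :=
      (tendsto_pow_atTop_nhds_zero_of_lt_one (by norm_num) (by norm_num)).const_mul M
    rw [mul_zero] at this
    exact (this.eventually (gt_mem_nhds hε)).exists
  refine ⟨3 * i, fun n hn => ?_⟩
  obtain ⟨m, rfl⟩ := Nat.exists_eq_add_of_le hn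
  rw [Real.dist_eq, sub_zero, add_comm]
  exact lt_of_le_of_lt (key i m) hi

end Helper68.Rec
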