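import Pool.Agent.Helper68.Rec.Trop
import Pool.Agent.Helper68.Rec.Lin

/-!
Solutions without small entries converge to the equilibrium; all others reach a state with
two very negative consecutive entries.
-/

namespace Helper68.Rec

open Filter Topology

theorem exp_ten : (10000 : ℝ) ≤ Real.exp 10 := by
  have h : (2.7182818283 : ℝ) < Real.exp 1 := Real.exp_one_gt_d9
  have h2 : Real.exp 10 = (Real.exp 1) ^ 10 := by
    rw [← Real.exp_nat_mul]; norm_num
  rw [h2]
  calc (10000 : ℝ) ≤ (2.7182818283 : ℝ) ^ 10 := by norm_num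
    _ ≤ _ := pow_le_pow_left₀ (by norm_num) h.le 10

theorem log_two_lt : Real.log 2 < 1 := by
  have := Real.log_two_lt_d9
  linarith

/-- no small entries: convergence to the equilibrium -/
theorem equi_of_ge {L : ℝ} {U : ℕ → ℝ} (hU : Sol L U) (hL : 1000 ≤ L)
    (h : ∀ n, L / 100 ≤ U n) : Tendsto U atTop (𝓝 L) := by
  have hLpos : 0 < L := by linarith
  choose l hl1 hl2 using fun n => secant (U n) L
  have key : Tendsto (fun n => (fun m => U (m + 5) - L) n) atTop (𝓝 0) := by
    apply lin_tendsto (fun n => U (n + 5) - L) (fun n => l (n + 5)) _ _ (3 * L)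
    · intro n
      obtain ⟨h1, h2⟩ := abs_le.mp (show |(0:ℝ)| ≤ 0 by simp)
      have hu := sol_upper hU hLpos n
      have hl := h (n + 5)
      have := log_two_lt
      rw [abs_le]
      constructor <;> linarith
    · intro n
      have e := hU (n + 5)
      have e1 := hl1 (n + 5)
      have e2 := hl1 (n + 7)
      simp only [show n + 3 + 5 = n + 5 + 3 by ring, show n + 2 + 5 = n + 7 by ring] at *
      rw [e]
      rw [show n + 5 + 2 = n + 7 by ring]
      linarith
    · intro n
      have hb := hl2 (n + 5) (L / 100) (max (U (n + 5)) L) (h _) (by linarith)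
        (le_max_left _ _) (le_max_right _ _)
      have h1 := sg_lt_one (max (U (n + 5)) L)
      have h2 := one_sub_exp_neg_le_sg (L / 100)
      have h3 : Real.exp (-(L / 100)) ≤ 1 / 10000 := by
        rw [Real.exp_neg, ← one_div]
        apply one_div_le_one_div_of_le (by norm_num)
        exact le_trans exp_ten (Real.exp_le_exp.mpr (by linarith))
      rw [abs_le]
      constructor <;> linarith [hb.1, hb.2]
  have key2 : Tendsto (fun m => U (m + 5)) atTop (𝓝 L) := by
    have := key.add_const L
    simpa using this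
  exact (tendsto_add_atTop_iff_nat 5).mp key2

/-- dichotomy -/
theorem equi_or_good {L : ℝ} {U : ℕ → ℝ} (hU : Sol L U) (hL : 1000 ≤ L) :
    Tendsto U atTop (𝓝 L) ∨
    ∃ m, U m ≤ 8 / 5 * L ∧ U (m + 1) ≤ -(L / 20) ∧ U (m + 2) ≤ -(L / 20) := by
  by_cases h : ∀ n, L / 100 ≤ U (n + 3)
  · left
    exact (tendsto_add_atTop_iff_nat 3).mp (equi_of_ge (hU.shift 3) hL h)
  · right
    push Not at h
    obtain ⟨n, hn⟩ := h
    have l2 := log_two_lt
    have l3 : Real.log 2 ≤ L / 1000 := by linarith
    have l4 : Real.log 2 < 0.6931471808 := Real.log_two_lt_d9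
    have h3 : sp ((fun m => U (m + n)) 3) ≤ L / 80 := by
      have : sp (U (n + 3)) ≤ L / 100 + Real.log 2 := sp_le_of_le hn.le (by linarith)
      simp only [show 3 + n = n + 3 by ring]
      linarith
    obtain ⟨m, h0, h1, h2⟩ := good_of_nearcut (hU.shift n) (by linarith) h3
    exact ⟨m + n, h0, by simpa [add_right_comm] using h1, by simpa [add_right_comm] using h2⟩

end Helper68.Rec
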