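import Pool.Agent.Helper68.Rec.Block

/-!
The special value of `L`, and the return map to the section (positions).
-/

namespace Helper68.Rec

open Filter Topology

/-- The special parameter, `B = exp (-LL)`. -/
noncomputable def LL : ℝ := 4 / 3 * rho 39

theorem LL_ge : (500000000000 : ℝ) ≤ LL := by
  have h1 := rho_ge 39
  have h2 : (0.6931471803 : ℝ) < Real.log 2 := Real.log_two_gt_d9
  unfold LL
  have h3 : (2:ℝ) ^ 39 * 0.6931471803 ≤ rho 39 := by
    refine le_trans ?_ h1
    apply mul_le_mul_of_nonneg_left h2.le (by positivity)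
  norm_num at h3
  linarith

theorem LL_ge' : (1000 : ℝ) ≤ LL := le_trans (by norm_num) LL_ge

theorem rho39 : rho 39 = 3 / 4 * LL := by unfold LL; ring

theorem exp_250 : (10 : ℝ) ^ 100 ≤ Real.exp 250 := by
  have h : Real.exp 250 = (Real.exp 10) ^ 25 := by
    rw [← Real.exp_nat_mul]; norm_num
  rw [h]
  calc (10 : ℝ) ^ 100 = 10000 ^ 25 := by norm_num
    _ ≤ _ := pow_le_pow_left₀ (by norm_num) exp_ten 25

theorem tau_LL : tau LL ≤ 1 / 10 ^ 100 := by
  unfold tau
  rw [Real.exp_neg, ← one_div]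
  apply one_div_le_one_div_of_le (by positivity)
  refine le_trans exp_250 (Real.exp_le_exp.mpr ?_)
  have := LL_ge
  linarith

theorem tau7 : 7 * tau LL ≤ 1 / 10 ^ 15 := by
  have h := tau_LL
  have h2 : (7:ℝ) * (1 / 10 ^ 100) ≤ 1 / 10 ^ 15 := by norm_num
  linarith

theorem exp_neg_70 : Real.exp (-70) ≤ 1 / 10 ^ 28 := by
  rw [Real.exp_neg, ← one_div]
  apply one_div_le_one_div_of_le (by positivity)
  have h : Real.exp 70 = (Real.exp 10) ^ 7 := by
    rw [← Real.exp_nat_mul]; norm_num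
  rw [h]
  calc (10 : ℝ) ^ 28 = 10000 ^ 7 := by norm_num
    _ ≤ _ := pow_le_pow_left₀ (by norm_num) exp_ten 7

theorem exp_neg_40 : Real.exp (-40) ≤ 1 / 10 ^ 16 := by
  rw [Real.exp_neg, ← one_div]
  apply one_div_le_one_div_of_le (by positivity)
  have h : Real.exp 40 = (Real.exp 10) ^ 4 := by
    rw [← Real.exp_nat_mul]; norm_num
  rw [h]
  calc (10 : ℝ) ^ 16 = 10000 ^ 4 := by norm_num
    _ ≤ _ := pow_le_pow_left₀ (by norm_num) exp_ten 4

theorem exp_neg_3 : Real.exp (-3) ≤ 1 / 20 := by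
  rw [Real.exp_neg, ← one_div]
  apply one_div_le_one_div_of_le (by positivity)
  have h : (2.7182818283 : ℝ) < Real.exp 1 := Real.exp_one_gt_d9
  have h2 : Real.exp 3 = (Real.exp 1) ^ 3 := by
    rw [← Real.exp_nat_mul]; norm_num
  rw [h2]
  calc (20 : ℝ) ≤ (2.7182818283 : ℝ) ^ 3 := by norm_num
    _ ≤ _ := pow_le_pow_left₀ (by norm_num) h.le 3

theorem log_two_gt : (0.69 : ℝ) < Real.log 2 := by
  have := Real.log_two_gt_d9
  linarith

theorem log_two_lt' : Real.log 2 < 0.7 := by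
  have := Real.log_two_lt_d9
  linarith

/-- the section -/
def Sec (U : ℕ → ℝ) (n : ℕ) : Prop :=
  7 / 10 * LL ≤ sp (U n) ∧ sp (U n) ≤ 17 / 10 * LL ∧ U (n + 1) ≤ -(LL / 20) ∧
    U (n + 2) ≤ -(LL / 20)

theorem rho_le39 {j : ℕ} (h : j ≤ 39) : rho j ≤ 3 / 4 * LL := by
  rw [← rho39]
  exact rho_mono h

theorem two_pow_le {j : ℕ} (h : j ≤ 40) : (2:ℝ) ^ j ≤ 10 ^ 13 := by
  calc (2:ℝ) ^ j ≤ 2 ^ 40 := pow_le_pow_right₀ (by norm_num) h
    _ ≤ _ := by norm_num

theorem small_term {j : ℕ} (h : j ≤ 40) {e : ℝ} (he : 0 ≤ e) (he' : e ≤ 1 / 10 ^ 15) :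
    0 ≤ 2 ^ j * (e + 6 * tau LL) ∧ 2 ^ j * (e + 6 * tau LL) ≤ 1 / 50 := by
  have ht := tau_pos LL
  have ht2 := tau_LL
  refine ⟨by positivity, ?_⟩
  calc 2 ^ j * (e + 6 * tau LL) ≤ 10 ^ 13 * (1 / 10 ^ 15 + 6 * (1 / 10 ^ 100)) :=
        mul_le_mul (two_pow_le h) (by linarith) (by positivity) (by norm_num)
    _ ≤ _ := by norm_num

/-- The section is reached. -/
theorem reach {U : ℕ → ℝ} (hU : Sol LL U) (m : ℕ) (h0 : U m ≤ 8 / 5 * LL)
    (h1 : U (m + 1) ≤ -(LL / 20)) (h2 : U (m + 2) ≤ -(LL / 20)) : ∃ n, Sec U n := by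
  by_contra hcon
  push Not at hcon
  have hL := LL_ge
  have ht := tau_pos LL
  have ht2 : tau LL ≤ 1 / 1000 := le_trans tau_LL (by norm_num)
  have l1 := log_two_gt
  have l2 := log_two_lt'
  have key : ∀ j : ℕ, (1 / 10 + (j:ℝ) / 2 ≤ sp (U (m + 8 * j)) ∨ j = 0) ∧
      sp (U (m + 8 * j)) ≤ 17 / 10 * LL ∧ U (m + 8 * j + 1) ≤ -(LL / 20) ∧
      U (m + 8 * j + 2) ≤ -(LL / 20) := by
    intro j
    induction j with
    | zero =>
      refine ⟨Or.inr rfl, ?_, by simpa using h1, by simpa using h2⟩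
      have : sp (U m) ≤ 8 / 5 * LL + Real.log 2 := sp_le_of_le h0 (by linarith)
      simp only [mul_zero, add_zero]
      linarith
    | succ j ih =>
      obtain ⟨a, b, c, d⟩ := ih
      have hlt : sp (U (m + 8 * j)) < 7 / 10 * LL := by
        by_contra hge
        push Not at hge
        exact hcon _ ⟨hge, b, c, d⟩
      obtain ⟨r, s1, s2⟩ := rblock hU LL_ge' (m + 8 * j) (by linarith) c d
      obtain ⟨r1, r2⟩ := abs_le.mp r
      have p := sp_pos (U (m + 8 * j))
      rw [show m + 8 * (j + 1) = m + 8 * j + 8 by ring]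
      refine ⟨Or.inl ?_, ?_, s1, s2⟩
      · rcases a with a | a
        · have q := lt_sp (U (m + 8 * j + 8))
          push_cast
          rcases Nat.eq_zero_or_pos j with hj | hj
          · subst hj
            have h5 : sp (-(6 * tau LL)) ≤ sp (U (m + 8 * 0 + 8)) := sp_mono (by linarith)
            have h6 := sp_sub_ge (x := 0) (e := 6 * tau LL) (by positivity)
            rw [sp_zero, zero_sub] at h6
            norm_num at *
            linarith
          · have : (1:ℝ) ≤ j := by exact_mod_cast hj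
            linarith
        · subst a
          have h5 : sp (-(6 * tau LL)) ≤ sp (U (m + 8 * 0 + 8)) := sp_mono (by linarith)
          have h6 := sp_sub_ge (x := 0) (e := 6 * tau LL) (by positivity)
          rw [sp_zero, zero_sub] at h6
          norm_num at *
          linarith
      · have : sp (U (m + 8 * j + 8)) ≤ (7 / 5 * LL + 1) + Real.log 2 :=
          sp_le_of_le (by linarith) (by linarith)
        linarith
  obtain ⟨j, hj⟩ := exists_nat_gt (4 * LL)
  obtain ⟨a, b, -, -⟩ := key j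
  rcases a with a | a
  · linarith
  · subst a
    simp at hj
    linarith

/-- The reset step together with the following block. -/
theorem zstep {U : ℕ → ℝ} (hU : Sol LL U) {n : ℕ} (h : Sec U n) :
    |U (n + 9) + 2 * sp (U (n + 3))| ≤ 7 * tau LL ∧ U (n + 10) ≤ -(LL / 20) ∧
      U (n + 11) ≤ -(LL / 20) ∧ sp (U (n + 3)) ≤ 2 / 5 * LL := by
  obtain ⟨a, b, c, d⟩ := h
  have hL := LL_ge
  have ht := tau_pos LL
  have ht2 : tau LL ≤ 1 / 1000 := le_trans tau_LL (by norm_num)
  have l2 := log_two_lt'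
  have e : U (n + 3) = LL + sp (U (n + 2)) - sp (U n) := hU n
  have s1 := sp_small c
  have s2 := sp_small d
  have p1 := sp_pos (U (n + 1))
  have p2 := sp_pos (U (n + 2))
  have g : sp (U (n + 3)) ≤ (3 / 10 * LL + 1) + Real.log 2 :=
    sp_le_of_le (by linarith) (by linarith)
  have g' : sp (U (n + 3)) ≤ 2 / 5 * LL := by linarith
  obtain ⟨⟨m8, m9, m10⟩, -⟩ := block (hU.shift (n + 1)) LL_ge'
    (by simp only [zero_add]; linarith)
    (by rw [show 1 + (n + 1) = n + 2 by ring]; exact s2)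
    (by rw [show 2 + (n + 1) = n + 3 by ring]; exact g')
  simp only [zero_add, show 8 + (n + 1) = n + 9 by ring, show 1 + (n + 1) = n + 2 by ring,
    show 2 + (n + 1) = n + 3 by ring, show 9 + (n + 1) = n + 10 by ring,
    show 10 + (n + 1) = n + 11 by ring] at m8 m9 m10
  refine ⟨?_, m9, m10, g'⟩
  rw [abs_le] at m8 ⊢
  constructor <;> linarith [m8.1, m8.2]

/-- Upper bounds along the return. -/
theorem ret_upper {U : ℕ → ℝ} (hU : Sol LL U) {n : ℕ} (h : Sec U n) :
    ∀ j ≤ 40, sp (U (n + 9 + 8 * j)) ≤ rho j + 1 / 50 ∧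
      U (n + 9 + 8 * j + 1) ≤ -(LL / 20) ∧ U (n + 9 + 8 * j + 2) ≤ -(LL / 20) := by
  obtain ⟨z1, z2, z3, _⟩ := zstep hU h
  have ht := tau_pos LL
  have ht2 := tau_LL
  have hL := LL_ge
  have p := sp_pos (U (n + 3))
  have h0 : sp (U (n + 9)) ≤ 1 * rho 0 + 7 * tau LL := by
    have h1 : sp (U (n + 9)) ≤ sp (0 + 7 * tau LL) := by
      apply sp_mono
      have := (abs_le.mp z1).2
      linarith
    have h2 := sp_add_le (x := 0) (e := 7 * tau LL) (by positivity)
    rw [sp_zero] at h2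
    simp only [rho]
    linarith
  have hsm : ∀ j ≤ 40, (2:ℝ) ^ j * (7 * tau LL + 6 * tau LL) ≤ 1 / 50 := fun j hj =>
    (small_term hj (e := 7 * tau LL) (by have := tau_pos LL; positivity) tau7).2
  have := chain_upper hU LL_ge' (n + 9) 0 1 (7 * tau LL) le_rfl (by positivity) 40 (by
    intro j hj
    have h1 := rho_le39 (j := j) (by omega)
    have h2 := hsm j (by omega)
    rw [zero_add]
    linarith) h0 z2 z3
  intro j hj
  obtain ⟨a, b, c⟩ := this j hj
  refine ⟨?_, b, c⟩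
  have h2 := hsm j hj
  rw [zero_add] at a
  linarith

theorem rho40_le : rho 40 ≤ 3 / 2 * LL + Real.log 2 := by
  have : rho 40 = sp (2 * rho 39) := rfl
  rw [this, rho39]
  have h := LL_ge
  exact sp_le_of_le (by linarith) (by linarith)

theorem rho40_ge : 3 / 2 * LL ≤ rho 40 := by
  have := rho_succ_ge 39
  rw [rho39] at this
  linarith

/-- values at the second block are at least `log 2 - small` -/
theorem second_ge {U : ℕ → ℝ} (hU : Sol LL U) {n : ℕ} (h : Sec U n) :
    rho 0 - 6 * tau LL ≤ sp (U (n + 17)) ∧ |U (n + 17) - 2 * sp (U (n + 9))| ≤ 6 * tau LL := by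
  have hr := ret_upper hU h 0 (by norm_num)
  simp only [mul_zero, add_zero] at hr
  obtain ⟨a, b, c⟩ := hr
  have hL := LL_ge
  have l2 := log_two_lt'
  have e0 : rho 0 = Real.log 2 := rfl
  obtain ⟨r, _, _⟩ := rblock hU LL_ge' (n + 9) (by linarith) b c
  rw [show n + 9 + 8 = n + 17 by ring] at r
  refine ⟨?_, r⟩
  have ht := tau_pos LL
  have p := sp_pos (U (n + 9))
  have h1 : sp (0 - 6 * tau LL) ≤ sp (U (n + 17)) := by
    apply sp_mono
    have := (abs_le.mp r).1
    linarith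
  have h2 := sp_sub_ge (x := 0) (e := 6 * tau LL) (by positivity)
  rw [sp_zero] at h2
  rw [e0]
  linarith

/-- chain hypotheses for lower bounds -/
theorem ret_chain {U : ℕ → ℝ} (hU : Sol LL U) {n : ℕ} (h : Sec U n) :
    ∀ j < 40, sp (U (n + 9 + 8 * j)) ≤ 17 / 20 * LL ∧ U (n + 9 + 8 * j + 1) ≤ -(LL / 20) ∧
      U (n + 9 + 8 * j + 2) ≤ -(LL / 20) := by
  intro j hj
  obtain ⟨a, b, c⟩ := ret_upper hU h j hj.le
  refine ⟨?_, b, c⟩
  have h1 := rho_le39 (j := j) (by omega)
  have hL := LL_ge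
  linarith

theorem ret_chain' {U : ℕ → ℝ} (hU : Sol LL U) {n : ℕ} (h : Sec U n) :
    ∀ j < 39, sp (U (n + 17 + 8 * j)) ≤ 17 / 20 * LL ∧ U (n + 17 + 8 * j + 1) ≤ -(LL / 20) ∧
      U (n + 17 + 8 * j + 2) ≤ -(LL / 20) := by
  intro j hj
  have := ret_chain hU h (j + 1) (by omega)
  rwa [show n + 9 + 8 * (j + 1) = n + 17 + 8 * j by ring] at this

/-- upper bound at the return from an upper bound in the second block -/
theorem from_second_upper {U : ℕ → ℝ} (hU : Sol LL U) {n : ℕ} (h : Sec U n) {c e : ℝ}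
    (hc : 1 ≤ c) (hc' : c ≤ 6 / 5) (he : 0 ≤ e) (he' : e ≤ 1 / 10 ^ 15)
    (hs : sp (U (n + 17)) ≤ c * rho 0 + e) :
    sp (U (n + 329)) ≤ c * (3 / 4 * LL) + 1 / 50 := by
  have hr := ret_upper hU h 1 (by norm_num)
  rw [show n + 9 + 8 * 1 = n + 17 by ring] at hr
  obtain ⟨a, b, d⟩ := hr
  have hL := LL_ge
  have ht := tau_pos LL
  have key := chain_upper hU LL_ge' (n + 17) 0 c e hc he 39 (by
    intro j hj
    rw [zero_add]
    have h1 : rho j ≤ 1 / 2 * (3 / 4 * LL) := by
      have h2 := rho_succ_ge j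
      have h3 := rho_le39 (j := j + 1) (by omega)
      linarith
    have h2 := (small_term (j := j) (by omega) he he').2
    have h3 := rho_pos j
    nlinarith) hs b d 39 le_rfl
  obtain ⟨k, -, -⟩ := key
  rw [zero_add, rho39, show n + 17 + 8 * 39 = n + 329 by ring] at k
  have h2 := (small_term (j := 39) (by omega) he he').2
  linarith

/-- the return -/
theorem sec_next {U : ℕ → ℝ} (hU : Sol LL U) {n : ℕ} (h : Sec U n) : Sec U (n + 329) := by
  have hu := ret_upper hU h 40 le_rfl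
  rw [show n + 9 + 8 * 40 = n + 329 by ring] at hu
  obtain ⟨a, b, c⟩ := hu
  have hL := LL_ge
  have l2 := log_two_lt'
  have hr := rho40_le
  obtain ⟨s, -⟩ := second_ge hU h
  have key := chain_lower hU LL_ge' (n + 17) 0 1 (6 * tau LL) (by norm_num) le_rfl
    (by have := tau_pos LL; positivity) 39 (ret_chain' hU h) (by linarith) 39 le_rfl
  have ht2 := tau_LL
  have hsm := (small_term (j := 39) (by omega) (e := 6 * tau LL)
    (by have := tau_pos LL; positivity) (by have := tau_pos LL; have := tau7; linarith)).2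
  have ht := tau_pos LL
  rw [zero_add, rho39, show n + 17 + 8 * 39 = n + 329 by ring] at key
  exact ⟨by linarith, by linarith, b, c⟩

theorem three_eq {U : ℕ → ℝ} (hU : Sol LL U) {n : ℕ} (h : Sec U n) :
    LL - sp (U n) ≤ U (n + 3) ∧ U (n + 3) ≤ LL - sp (U n) + 1 := by
  have e : U (n + 3) = LL + sp (U (n + 2)) - sp (U n) := hU n
  have s2 := sp_small h.2.2.2
  have p2 := sp_pos (U (n + 2))
  have ht2 : tau LL ≤ 1 / 1000 := le_trans tau_LL (by norm_num)
  constructor <;> linarith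

/-- low region is invariant -/
theorem low_next {U : ℕ → ℝ} (hU : Sol LL U) {n : ℕ} (h : Sec U n) (hl : 40 ≤ U (n + 3)) :
    U (n + 9) ≤ -70 ∧ 40 ≤ U (n + 332) := by
  obtain ⟨z1, z2, z3, _⟩ := zstep hU h
  have ht := tau_pos LL
  have ht2 := tau_LL
  have ht3 : tau LL ≤ 1 / 1000 := le_trans tau_LL (by norm_num)
  have hL := LL_ge
  have g := lt_sp (U (n + 3))
  have h9 : U (n + 9) ≤ -70 := by
    have := (abs_le.mp z1).2
    linarith
  refine ⟨h9, ?_⟩
  have w9 : sp (U (n + 9)) ≤ 1 / 10 ^ 28 :=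
    le_trans (sp_le_exp _) (le_trans (Real.exp_le_exp.mpr h9) exp_neg_70)
  obtain ⟨-, r⟩ := second_ge hU h
  have r2 := (abs_le.mp r).2
  have h17 : sp (U (n + 17)) ≤ 1 * rho 0 + 3 / 10 ^ 28 := by
    have h1 : sp (U (n + 17)) ≤ sp (0 + 3 / 10 ^ 28) := by
      apply sp_mono
      norm_num at *
      linarith
    have h2 := sp_add_le (x := 0) (e := 3 / 10 ^ 28) (by positivity)
    rw [sp_zero] at h2
    simp only [rho]
    linarith
  have hf := from_second_upper hU h le_rfl (by norm_num) (by norm_num) (by norm_num) h17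
  have h3 := (three_eq hU (sec_next hU h)).1
  rw [show n + 329 + 3 = n + 332 by ring] at h3
  linarith

/-- high region is invariant -/
theorem high_next {U : ℕ → ℝ} (hU : Sol LL U) {n : ℕ} (h : Sec U n) (hl : U (n + 3) ≤ -40) :
    U (n + 332) ≤ -40 := by
  obtain ⟨z1, z2, z3, _⟩ := zstep hU h
  have ht := tau_pos LL
  have ht2 := tau_LL
  have ht3 : tau LL ≤ 1 / 1000 := le_trans tau_LL (by norm_num)
  have hL := LL_ge
  have g : sp (U (n + 3)) ≤ 1 / 10 ^ 16 :=
    le_trans (sp_le_exp _) (le_trans (Real.exp_le_exp.mpr hl) exp_neg_40)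
  have h9 : 0 - 3 / 10 ^ 16 ≤ U (n + 9) := by
    have := (abs_le.mp z1).1
    norm_num at *
    linarith
  have w9 : 1 * rho 0 - 3 / 10 ^ 16 ≤ sp (U (n + 9)) := by
    have h1 : sp (0 - 3 / 10 ^ 16) ≤ sp (U (n + 9)) := sp_mono h9
    have h2 := sp_sub_ge (x := 0) (e := 3 / 10 ^ 16) (by positivity)
    rw [sp_zero] at h2
    simp only [rho]
    linarith
  have key := chain_lower hU LL_ge' (n + 9) 0 1 (3 / 10 ^ 16) (by norm_num) le_rfl
    (by norm_num) 40 (ret_chain hU h) w9 40 le_rfl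
  have hsm := (small_term (j := 40) le_rfl (e := 3 / 10 ^ 16) (by norm_num) (by norm_num)).2
  rw [zero_add, show n + 9 + 8 * 40 = n + 329 by ring] at key
  have hr := rho40_ge
  have h3 := (three_eq hU (sec_next hU h)).2
  rw [show n + 329 + 3 = n + 332 by ring] at h3
  linarith

/-- orbits staying in the middle are localised -/
theorem mid_loc {U : ℕ → ℝ} (hU : Sol LL U) {n : ℕ} (h : Sec U n)
    (h1 : -40 < U (n + 332)) (h2 : U (n + 332) < 40) : -3 ≤ U (n + 3) ∧ -3 ≤ U (n + 9) := by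
  obtain ⟨z1, z2, z3, _⟩ := zstep hU h
  have ht := tau_pos LL
  have ht2 := tau_LL
  have ht3 : tau LL ≤ 1 / 1000 := le_trans tau_LL (by norm_num)
  have hL := LL_ge
  have l1 := log_two_gt
  have l2 := log_two_lt'
  have e0 : rho 0 = Real.log 2 := rfl
  have h3 := three_eq hU (sec_next hU h)
  rw [show n + 329 + 3 = n + 332 by ring] at h3
  constructor
  · by_contra hcon
    push Not at hcon
    have g : sp (U (n + 3)) ≤ 1 / 20 :=
      le_trans (sp_le_exp _) (le_trans (Real.exp_le_exp.mpr hcon.le) exp_neg_3)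
    have h9 : 0 - 11 / 100 ≤ U (n + 9) := by
      have := (abs_le.mp z1).1
      linarith
    have w9 : 4 / 5 * rho 0 - 0 ≤ sp (U (n + 9)) := by
      have h1 : sp (0 - 11 / 100) ≤ sp (U (n + 9)) := sp_mono h9
      have h2 := sp_sub_ge (x := 0) (e := 11 / 100) (by positivity)
      rw [sp_zero] at h2
      rw [e0]
      linarith
    have key := chain_lower hU LL_ge' (n + 9) 0 (4 / 5) 0 (by norm_num) (by norm_num)
      le_rfl 40 (ret_chain hU h) w9 40 le_rfl
    have hsm := (small_term (j := 40) le_rfl (e := 0) le_rfl (by norm_num)).2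
    rw [zero_add, show n + 9 + 8 * 40 = n + 329 by ring] at key
    have hr := rho40_ge
    linarith [h3.2]
  · by_contra hcon
    push Not at hcon
    have w9 : sp (U (n + 9)) ≤ 1 / 20 :=
      le_trans (sp_le_exp _) (le_trans (Real.exp_le_exp.mpr hcon.le) exp_neg_3)
    obtain ⟨-, r⟩ := second_ge hU h
    have r2 := (abs_le.mp r).2
    have h17 : sp (U (n + 17)) ≤ 6 / 5 * rho 0 + 0 := by
      have h1 : sp (U (n + 17)) ≤ sp (0 + 11 / 100) := by
        apply sp_mono
        linarith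
      have h2 := sp_add_le (x := 0) (e := 11 / 100) (by positivity)
      rw [sp_zero] at h2
      rw [e0]
      linarith
    have hf := from_second_upper hU h (by norm_num) le_rfl le_rfl (by norm_num) h17
    linarith [h3.1]

end Helper68.Rec
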