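import Mathlib

/-!
The softplus function `sp x = log (1 + exp x)` and elementary estimates.
-/

namespace Helper68.Rec

open Real

/-- softplus -/
noncomputable def sp (x : ℝ) : ℝ := Real.log (1 + Real.exp x)

/-- logistic function, the derivative of `sp` -/
noncomputable def sg (x : ℝ) : ℝ := Real.exp x / (1 + Real.exp x)

theorem one_add_pos (x : ℝ) : 0 < 1 + Real.exp x := by positivity

theorem sp_pos (x : ℝ) : 0 < sp x := by
  apply Real.log_pos
  have := Real.exp_pos x
  linarith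

theorem exp_sp (x : ℝ) : Real.exp (sp x) = 1 + Real.exp x := by
  rw [sp, Real.exp_log (one_add_pos x)]

theorem lt_sp (x : ℝ) : x < sp x := by
  rw [← Real.exp_lt_exp, exp_sp]
  linarith

theorem sp_le_exp (x : ℝ) : sp x ≤ Real.exp x := by
  have := Real.log_le_sub_one_of_pos (one_add_pos x)
  unfold sp
  linarith

theorem sp_eq (x : ℝ) : sp x = x + sp (-x) := by
  have h : 1 + Real.exp x = Real.exp x * (1 + Real.exp (-x)) := by
    rw [mul_add, mul_one, ← Real.exp_add]
    simp
    ring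
  rw [sp, h, Real.log_mul (Real.exp_pos x).ne' (one_add_pos _).ne', Real.log_exp, sp]

theorem sp_le_add (x : ℝ) : sp x ≤ x + Real.exp (-x) := by
  rw [sp_eq]
  have := sp_le_exp (-x)
  linarith

theorem sp_zero : sp 0 = Real.log 2 := by
  norm_num [sp]

theorem sp_strictMono : StrictMono sp := by
  intro x y h
  apply Real.log_lt_log (one_add_pos x)
  have := Real.exp_lt_exp.mpr h
  linarith

theorem sp_mono {x y : ℝ} (h : x ≤ y) : sp x ≤ sp y := sp_strictMono.monotone h

theorem sp_le_of_nonpos {x : ℝ} (h : x ≤ 0) : sp x ≤ Real.log 2 := by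
  rw [← sp_zero]
  exact sp_mono h

theorem sp_le_of_nonneg {x : ℝ} (h : 0 ≤ x) : sp x ≤ x + Real.log 2 := by
  rw [sp_eq]
  have := sp_le_of_nonpos (x := -x) (by linarith)
  linarith

theorem sp_le_max (x : ℝ) : sp x ≤ max x 0 + Real.log 2 := by
  rcases le_total x 0 with h | h
  · rw [max_eq_right h]
    have := sp_le_of_nonpos h
    linarith
  · rw [max_eq_left h]
    exact sp_le_of_nonneg h

theorem hasDerivAt_sp (x : ℝ) : HasDerivAt sp (sg x) x := by
  have h := ((Real.hasDerivAt_exp x).const_add 1).log (one_add_pos x).ne'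
  exact h

theorem continuous_sp : Continuous sp := by
  have : Differentiable ℝ sp := fun x => (hasDerivAt_sp x).differentiableAt
  exact this.continuous

theorem sg_pos (x : ℝ) : 0 < sg x := by
  unfold sg
  positivity

theorem sg_lt_one (x : ℝ) : sg x < 1 := by
  unfold sg
  rw [div_lt_one (one_add_pos x)]
  linarith

theorem sg_mono {x y : ℝ} (h : x ≤ y) : sg x ≤ sg y := by
  unfold sg
  rw [div_le_div_iff₀ (one_add_pos x) (one_add_pos y)]
  have := Real.exp_le_exp.mpr h
  nlinarith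

theorem sg_le_exp (x : ℝ) : sg x ≤ Real.exp x := by
  unfold sg
  rw [div_le_iff₀ (one_add_pos x)]
  have := Real.exp_pos x
  nlinarith

theorem one_sub_exp_neg_le_sg (x : ℝ) : 1 - Real.exp (-x) ≤ sg x := by
  unfold sg
  rw [le_div_iff₀ (one_add_pos x)]
  have h1 : Real.exp (-x) * Real.exp x = 1 := by
    rw [← Real.exp_add]
    simp
  have := Real.exp_pos (-x)
  have := Real.exp_pos x
  nlinarith

/-- secant slopes of `sp` are values of the derivative between the two points -/
theorem secant (x y : ℝ) : ∃ l : ℝ, sp x - sp y = l * (x - y) ∧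
    ∀ a b : ℝ, a ≤ x → a ≤ y → x ≤ b → y ≤ b → sg a ≤ l ∧ l ≤ sg b := by
  rcases lt_trichotomy x y with h | h | h
  · obtain ⟨c, hc, hc'⟩ := exists_hasDerivAt_eq_slope sp sg h continuous_sp.continuousOn
      (fun z _ => hasDerivAt_sp z)
    refine ⟨sg c, ?_, ?_⟩
    · rw [hc']
      have : y - x ≠ 0 := by linarith [sub_pos.mpr h]
      field_simp
      ring
    · intro a b h1 h2 h3 h4
      exact ⟨sg_mono (by linarith [hc.1]), sg_mono (by linarith [hc.2])⟩
  · subst h
    exact ⟨sg x, by ring, fun a b h1 _ h3 _ => ⟨sg_mono h1, sg_mono h3⟩⟩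
  · obtain ⟨c, hc, hc'⟩ := exists_hasDerivAt_eq_slope sp sg h continuous_sp.continuousOn
      (fun z _ => hasDerivAt_sp z)
    refine ⟨sg c, ?_, ?_⟩
    · rw [hc']
      have : x - y ≠ 0 := by linarith [sub_pos.mpr h]
      field_simp
    · intro a b h1 h2 h3 h4
      exact ⟨sg_mono (by linarith [hc.1]), sg_mono (by linarith [hc.2])⟩

theorem sp_sub_le {x y : ℝ} (h : x ≤ y) : sp y - sp x ≤ y - x := by
  obtain ⟨l, hl, hl'⟩ := secant y x
  obtain ⟨h1, h2⟩ := hl' x y h le_rfl le_rfl h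
  rw [hl]
  have := sg_lt_one y
  have := sg_pos x
  nlinarith

theorem sp_add_le {x e : ℝ} (h : 0 ≤ e) : sp (x + e) ≤ sp x + e := by
  have := sp_sub_le (x := x) (y := x + e) (by linarith)
  linarith

theorem sp_sub_ge {x e : ℝ} (h : 0 ≤ e) : sp x - e ≤ sp (x - e) := by
  have := sp_sub_le (x := x - e) (y := x) (by linarith)
  linarith

/-- comparison: `sp (c x) ≤ c * sp x` for `c ≥ 1` -/
theorem sp_mul_le {c x : ℝ} (hc : 1 ≤ c) : sp (c * x) ≤ c * sp x := by
  have h1 : (1:ℝ) ^ c + (Real.exp x) ^ c ≤ (1 + Real.exp x) ^ c :=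
    Real.add_rpow_le_rpow_add (by norm_num) (Real.exp_pos x).le hc
  rw [Real.one_rpow, ← Real.exp_mul] at h1
  rw [← Real.exp_le_exp, exp_sp]
  calc 1 + Real.exp (c * x) = 1 + Real.exp (x * c) := by rw [mul_comm]
    _ ≤ (1 + Real.exp x) ^ c := h1
    _ = Real.exp (c * sp x) := by
      rw [← exp_sp, ← Real.exp_mul, mul_comm]

theorem sp_mul_ge {c x : ℝ} (hc : 0 ≤ c) (hc' : c ≤ 1) : c * sp x ≤ sp (c * x) := by
  have h1 : (1 + Real.exp x) ^ c ≤ (1:ℝ) ^ c + (Real.exp x) ^ c :=
    Real.rpow_add_le_add_rpow (by norm_num) (Real.exp_pos x).le hc hc'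
  rw [Real.one_rpow, ← Real.exp_mul] at h1
  rw [← Real.exp_le_exp, exp_sp]
  calc Real.exp (c * sp x) = (1 + Real.exp x) ^ c := by
        rw [← exp_sp, ← Real.exp_mul, mul_comm]
    _ ≤ 1 + Real.exp (x * c) := h1
    _ = 1 + Real.exp (c * x) := by rw [mul_comm]

/-- logarithmic form of the recurrence -/
def Sol (L : ℝ) (U : ℕ → ℝ) : Prop := ∀ n, U (n + 3) = L + sp (U (n + 2)) - sp (U n)

theorem Sol.shift {L : ℝ} {U : ℕ → ℝ} (h : Sol L U) (m : ℕ) : Sol L (fun n => U (n + m)) := by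
  intro n
  have := h (n + m)
  simpa [show n + m + 3 = n + 3 + m by ring, show n + m + 2 = n + 2 + m by ring] using this

end Helper68.Rec
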