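import Pool.Agent.Helper68.Rec.Sp

/-!
The piecewise linear analysis: as soon as some `sp (U n)` is small, the orbit reaches,
after boundedly many steps, a state with two very negative consecutive entries.
-/

namespace Helper68.Rec

open Real

theorem sp_le_of_le {x a : ℝ} (h : x ≤ a) (ha : 0 ≤ a) : sp x ≤ a + Real.log 2 :=
  le_trans (sp_mono h) (sp_le_of_nonneg ha)

/-- from a state with two consecutive small values of `sp` -/
theorem rstate {L : ℝ} {U : ℕ → ℝ} (hU : Sol L U) (hL : 1000 * Real.log 2 ≤ L)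
    (h1 : sp (U 1) ≤ L / 10) (h2 : sp (U 2) ≤ L / 10) :
    ∃ m, U m ≤ 8 / 5 * L ∧ U (m + 1) ≤ -(L / 20) ∧ U (m + 2) ≤ -(L / 20) := by
  have l2 : 0 < Real.log 2 := Real.log_pos (by norm_num)
  have hLpos : 0 < L := by linarith
  have p0 := sp_pos (U 0)
  have p1 := sp_pos (U 1)
  have p2 := sp_pos (U 2)
  have e3 : U 3 = L + sp (U 2) - sp (U 0) := hU 0
  have e4 : U 4 = L + sp (U 3) - sp (U 1) := hU 1
  have e5 : U 5 = L + sp (U 4) - sp (U 2) := hU 2
  have e6 : U 6 = L + sp (U 5) - sp (U 3) := hU 3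
  have e7 : U 7 = L + sp (U 6) - sp (U 4) := hU 4
  have e8 : U 8 = L + sp (U 7) - sp (U 5) := hU 5
  have e9 : U 9 = L + sp (U 8) - sp (U 6) := hU 6
  have e10 : U 10 = L + sp (U 9) - sp (U 7) := hU 7
  have e11 : U 11 = L + sp (U 10) - sp (U 8) := hU 8
  have p3 := sp_pos (U 3)
  have q3 := lt_sp (U 3)
  have q4 := lt_sp (U 4)
  have q5 := lt_sp (U 5)
  have q6 := lt_sp (U 6)
  have q7 := lt_sp (U 7)
  have q8 := lt_sp (U 8)
  have q9 := lt_sp (U 9)
  have p8 := sp_pos (U 8)
  have p9 := sp_pos (U 9)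
  have p10 := sp_pos (U 10)
  rcases le_total (19 / 20 * L) (sp (U 0)) with hc | hc
  · -- full reset
    have r3 : sp (U 3) ≤ 3 / 20 * L + Real.log 2 := sp_le_of_le (by linarith) (by linarith)
    have r4 := sp_le_of_nonneg (x := U 4) (by linarith)
    have r5 := sp_le_of_nonneg (x := U 5) (by linarith)
    have r6 := sp_le_of_nonneg (x := U 6) (by linarith)
    have r7 := sp_le_of_nonneg (x := U 7) (by linarith)
    have r8 := sp_le_of_nonneg (x := U 8) (by linarith)
    have r9 : sp (U 9) ≤ 7 / 10 * L + Real.log 2 := sp_le_of_le (by linarith) (by linarith)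
    have r10 : sp (U 10) ≤ 0 + Real.log 2 := sp_le_of_le (by linarith) le_rfl
    exact ⟨9, by linarith, by norm_num; linarith, by norm_num; linarith⟩
  · have r3 := sp_le_of_nonneg (x := U 3) (by linarith)
    have r4 := sp_le_of_nonneg (x := U 4) (by linarith)
    have r5 := sp_le_of_nonneg (x := U 5) (by linarith)
    have r6 := sp_le_of_nonneg (x := U 6) (by linarith)
    have r7 := sp_le_of_nonneg (x := U 7) (by linarith)
    rcases le_total (sp (U 0)) (7 / 10 * L) with hd | hd
    · have r8 : sp (U 8) ≤ 31 / 20 * L + Real.log 2 := sp_le_of_le (by linarith) (by linarith)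
      have r9 : sp (U 9) ≤ 0 + Real.log 2 := sp_le_of_le (by linarith) le_rfl
      exact ⟨8, by linarith, by norm_num; linarith, by norm_num; linarith⟩
    · have r8 := sp_le_of_nonneg (x := U 8) (by linarith)
      have r9 : sp (U 9) ≤ 3 / 10 * L + Real.log 2 := sp_le_of_le (by linarith) (by linarith)
      have r10 : sp (U 10) ≤ 0 + Real.log 2 := sp_le_of_le (by linarith) le_rfl
      exact ⟨9, by linarith, by norm_num; linarith, by norm_num; linarith⟩

/-- as soon as one value of `sp` is small, two consecutive small values follow -/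
theorem nearcut {L : ℝ} {U : ℕ → ℝ} (hU : Sol L U) (hL : 1000 * Real.log 2 ≤ L)
    (h3 : sp (U 3) ≤ L / 80) :
    ∃ j, sp (U (j + 1)) ≤ L / 10 ∧ sp (U (j + 2)) ≤ L / 10 := by
  have l2 : 0 < Real.log 2 := Real.log_pos (by norm_num)
  have hLpos : 0 < L := by linarith
  have p1 := sp_pos (U 1)
  have p2 := sp_pos (U 2)
  have p3 := sp_pos (U 3)
  have e4 : U 4 = L + sp (U 3) - sp (U 1) := hU 1
  have e5 : U 5 = L + sp (U 4) - sp (U 2) := hU 2
  have e6 : U 6 = L + sp (U 5) - sp (U 3) := hU 3
  have e7 : U 7 = L + sp (U 6) - sp (U 4) := hU 4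
  have e8 : U 8 = L + sp (U 7) - sp (U 5) := hU 5
  have e9 : U 9 = L + sp (U 8) - sp (U 6) := hU 6
  have e10 : U 10 = L + sp (U 9) - sp (U 7) := hU 7
  have e11 : U 11 = L + sp (U 10) - sp (U 8) := hU 8
  have e12 : U 12 = L + sp (U 11) - sp (U 9) := hU 9
  have e13 : U 13 = L + sp (U 12) - sp (U 10) := hU 10
  have q4 := lt_sp (U 4)
  have q5 := lt_sp (U 5)
  have q6 := lt_sp (U 6)
  have q7 := lt_sp (U 7)
  have q8 := lt_sp (U 8)
  have q9 := lt_sp (U 9)
  have q10 := lt_sp (U 10)
  have q11 := lt_sp (U 11)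
  have p5 := sp_pos (U 5)
  have p9 := sp_pos (U 9)
  have p10 := sp_pos (U 10)
  have p11 := sp_pos (U 11)
  have p12 := sp_pos (U 12)
  rcases le_total (19 / 20 * L) (sp (U 1)) with hc | hc
  · refine ⟨2, ?_, ?_⟩
    · norm_num; linarith
    · have : sp (U 4) ≤ 1 / 15 * L + Real.log 2 := sp_le_of_le (by linarith) (by linarith)
      norm_num; linarith
  have r4 := sp_le_of_nonneg (x := U 4) (by linarith)
  rcases le_total (U 5) (1 / 50 * L) with hd | hd
  · -- case 2a
    have r5 : sp (U 5) ≤ 1 / 50 * L + Real.log 2 := sp_le_of_le hd (by linarith)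
    have r6 := sp_le_of_nonneg (x := U 6) (by linarith)
    have r7 := sp_le_of_nonneg (x := U 7) (by linarith)
    have r8 := sp_le_of_nonneg (x := U 8) (by linarith)
    have r9 := sp_le_of_nonneg (x := U 9) (by linarith)
    have r10 := sp_le_of_nonneg (x := U 10) (by linarith)
    have r11 : sp (U 11) ≤ (U 4 + 1 / 30 * L) + Real.log 2 :=
      sp_le_of_le (by linarith) (by linarith)
    have r12 : sp (U 12) ≤ 99 / 1000 * L + Real.log 2 :=
      sp_le_of_le (by linarith) (by linarith)
    have r13 : sp (U 13) ≤ 0 + Real.log 2 := sp_le_of_le (by linarith) le_rfl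
    refine ⟨11, ?_, ?_⟩
    · norm_num; linarith
    · norm_num; linarith
  · -- case 2b
    have r5 := sp_le_of_nonneg (x := U 5) (by linarith)
    have r6 := sp_le_of_nonneg (x := U 6) (by linarith)
    have r7 := sp_le_of_nonneg (x := U 7) (by linarith)
    have r8 := sp_le_of_nonneg (x := U 8) (by linarith)
    rcases le_total (sp (U 5)) L with he | he
    · have r9 := sp_le_of_nonneg (x := U 9) (by linarith)
      rcases le_total 0 (U 10) with hf | hf
      · have r10 := sp_le_of_nonneg hf
        rcases le_total (U 11) (1 / 20 * L) with hg | hg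
        · have r11 : sp (U 11) ≤ 1 / 20 * L + Real.log 2 := sp_le_of_le hg (by linarith)
          have r12 : sp (U 12) ≤ 99 / 1000 * L + Real.log 2 :=
            sp_le_of_le (by linarith) (by linarith)
          refine ⟨10, ?_, ?_⟩
          · norm_num; linarith
          · norm_num; linarith
        · have r11 := sp_le_of_nonneg (x := U 11) (by linarith)
          have r12 : sp (U 12) ≤ 99 / 1000 * L + Real.log 2 :=
            sp_le_of_le (by linarith) (by linarith)
          have r13 : sp (U 13) ≤ 99 / 1000 * L + Real.log 2 :=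
            sp_le_of_le (by linarith) (by linarith)
          refine ⟨11, ?_, ?_⟩
          · norm_num; linarith
          · norm_num; linarith
      · have r10 := sp_le_of_nonpos hf
        have r11 : sp (U 11) ≤ 0 + Real.log 2 := sp_le_of_le (by linarith) le_rfl
        refine ⟨9, ?_, ?_⟩
        · norm_num; linarith
        · norm_num; linarith
    · have r9 : sp (U 9) ≤ max (U 9) 0 + Real.log 2 := sp_le_max _
      have r10 : sp (U 10) ≤ 9 / 100 * L + Real.log 2 := by
        apply sp_le_of_le _ (by linarith)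
        rcases le_total (U 9) 0 with h | h
        · rw [max_eq_right h] at r9
          linarith
        · rw [max_eq_left h] at r9
          linarith
      have r11 : sp (U 11) ≤ 0 + Real.log 2 := sp_le_of_le (by linarith) le_rfl
      refine ⟨9, ?_, ?_⟩
      · norm_num; linarith
      · norm_num; linarith

/-- a state in which the section analysis can start -/
theorem good_of_nearcut {L : ℝ} {U : ℕ → ℝ} (hU : Sol L U) (hL : 1000 * Real.log 2 ≤ L)
    (h3 : sp (U 3) ≤ L / 80) :
    ∃ m, U m ≤ 8 / 5 * L ∧ U (m + 1) ≤ -(L / 20) ∧ U (m + 2) ≤ -(L / 20) := by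
  obtain ⟨j, hj1, hj2⟩ := nearcut hU hL h3
  obtain ⟨m, h0, h1, h2⟩ := rstate (hU.shift j) hL (by simpa [add_comm] using hj1)
    (by simpa [add_comm] using hj2)
  exact ⟨m + j, h0, by simpa [add_right_comm] using h1, by simpa [add_right_comm] using h2⟩

/-- upper bound for solutions -/
theorem sol_upper {L : ℝ} {U : ℕ → ℝ} (hU : Sol L U) (hL : 0 < L) (n : ℕ) :
    U (n + 5) ≤ 3 * L + 2 * Real.log 2 := by
  have l2 : 0 < Real.log 2 := Real.log_pos (by norm_num)
  have e3 : U (n + 3) = L + sp (U (n + 2)) - sp (U n) := hU n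
  have e4 : U (n + 4) = L + sp (U (n + 3)) - sp (U (n + 1)) := hU (n + 1)
  have e5 : U (n + 5) = L + sp (U (n + 4)) - sp (U (n + 2)) := hU (n + 2)
  have p0 := sp_pos (U n)
  have p1 := sp_pos (U (n + 1))
  have p2 := sp_pos (U (n + 2))
  have r3 : sp (U (n + 3)) ≤ (L + sp (U (n + 2))) + Real.log 2 :=
    sp_le_of_le (by linarith) (by linarith)
  have r4 : sp (U (n + 4)) ≤ (2 * L + sp (U (n + 2)) + Real.log 2) + Real.log 2 :=
    sp_le_of_le (by linarith) (by linarith)
  linarith

theorem sol_lower {L : ℝ} {U : ℕ → ℝ} (hU : Sol L U) (hL : 0 < L) (n : ℕ) :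
    -(2 * L + 3 * Real.log 2) ≤ U (n + 8) := by
  have l2 : 0 < Real.log 2 := Real.log_pos (by norm_num)
  have e : U (n + 8) = L + sp (U (n + 7)) - sp (U (n + 5)) := hU (n + 5)
  have p := sp_pos (U (n + 7))
  have r : sp (U (n + 5)) ≤ (3 * L + 2 * Real.log 2) + Real.log 2 :=
    sp_le_of_le (sol_upper hU hL n) (by linarith)
  linarith

end Helper68.Rec
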